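import Pool.Agent.H65.TU.StepQ

/-!
# Project TU: the step property of a critical point of the last value
-/

set_option autoImplicit false

namespace Pool.Agent.H65.TU

open Filter Topology QuadraticForm Metric
open Pool.Agent.H21.TU
open Pool.Agent.H47.QG (hess)
open Pool.Agent.H47.ST (Co Simp In dd dX cut co sgn HR tr Inv Lv Am Xm lam ps rl PerL Xm_inv
  Lv_mono)
open Pool.Agent.H93.TU (Tot LB last_band_ne Am_sub_Lv Lv_sub_Xm)
open Pool.Agent.H10.TU (D2 comb comb_add comb_smul comb_sub comb_zero comb_continuous)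
open Pool.Agent.H1.TU (StepP)

/-- critical values are isolated -/
theorem val_iso {X : Type*} (Z : Finset X) (f : X → ℝ) (c : ℝ) :
    ∃ η > 0, ∀ z ∈ Z, |f z - c| < η → f z = c := by
  classical
  have h1 : ∀ᶠ η : ℝ in 𝓝[>] 0, ∀ z ∈ Z, |f z - c| < η → f z = c := by
    rw [Filter.eventually_all_finset]
    intro z _
    by_cases hz : f z = c
    · exact Eventually.of_forall fun _ _ => hz
    · have h2 : 0 < |f z - c| := abs_pos.2 (sub_ne_zero.2 hz)
      filter_upwards [(eventually_lt_nhds h2).filter_mono nhdsWithin_le_nhds] with η h3 h4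
      exact absurd h4 (not_lt.2 h3.le)
  obtain ⟨η, h2, h3⟩ := (h1.and self_mem_nhdsWithin).exists
  exact ⟨η, h3, h2⟩

variable {ι : Type*} [Fintype ι] [DecidableEq ι]

/-- forms adapted to a subspace and a vector outside -/
theorem forms_cons (V : Submodule ℝ (ι → ℝ)) {w : ι → ℝ} (hw : w ∉ V) {b : ℕ}
    (hV : Module.finrank ℝ V = b) : ∃ (k : ℕ) (c1 : ι → ℝ) (c2 : Fin k → ι → ℝ),
      Fintype.card ι = b + (k + 1) ∧ ∑ i, c1 i * w i = 1 ∧ (∀ v ∈ V, ∑ i, c1 i * v i = 0) ∧
      (∀ v, (∀ j, ∑ i, c2 j i * v i = 0) ↔ ∃ v0 ∈ V, ∃ t : ℝ, v = v0 + t • w) := by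
  have hw0 : w ≠ 0 := fun h => hw (h ▸ V.zero_mem)
  have hdis : V ⊓ Submodule.span ℝ {w} = ⊥ := by
    rw [Submodule.eq_bot_iff]
    intro v hv
    obtain ⟨h1, h2⟩ := Submodule.mem_inf.1 hv
    obtain ⟨t, rfl⟩ := Submodule.mem_span_singleton.1 h2
    by_contra hne
    have ht : t ≠ 0 := fun h => hne (by rw [h, zero_smul])
    exact hw ((Submodule.smul_mem_iff V ht).1 h1)
  have hfin := Submodule.finrank_sup_add_finrank_inf_eq V (Submodule.span ℝ {w})
  rw [hdis, finrank_bot, finrank_span_singleton hw0, hV, add_zero] at hfin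
  have hle := Submodule.finrank_le (V ⊔ Submodule.span ℝ {w})
  rw [hfin, Module.finrank_fintype_fun_eq_card] at hle
  obtain ⟨c2, hc2⟩ := forms_of (b := Fintype.card ι - (b + 1)) (V ⊔ Submodule.span ℝ {w})
    (by omega)
  obtain ⟨c, hc⟩ := forms_of (b := Fintype.card ι - b) V (by omega)
  have hex : ∃ j, ∑ i, c j i * w i ≠ 0 := by
    by_contra hcon
    push Not at hcon
    exact hw ((hc w).1 hcon)
  obtain ⟨j, hj⟩ := hex
  refine ⟨_, fun i => c j i / ∑ i, c j i * w i, c2, by omega, ?_, fun v hv => ?_, fun v => ?_⟩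
  · have h1 : ∀ i, c j i / (∑ i, c j i * w i) * w i = (c j i * w i) / ∑ i, c j i * w i :=
      fun i => by ring
    rw [Finset.sum_congr rfl fun i _ => h1 i, ← Finset.sum_div, div_self hj]
  · have h1 : ∀ i, c j i / (∑ i, c j i * w i) * v i = (c j i * v i) / ∑ i, c j i * w i :=
      fun i => by ring
    rw [Finset.sum_congr rfl fun i _ => h1 i, ← Finset.sum_div, (hc v).2 hv j, zero_div]
  · rw [hc2 v, Submodule.mem_sup]
    constructor
    · rintro ⟨v0, hv0, v1, hv1, rfl⟩
      obtain ⟨t, rfl⟩ := Submodule.mem_span_singleton.1 hv1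
      exact ⟨v0, hv0, t, rfl⟩
    · rintro ⟨v0, hv0, t, rfl⟩
      exact ⟨v0, hv0, t • w, Submodule.mem_span_singleton.2 ⟨t, rfl⟩, rfl⟩

/-- **The step property.** If the thin bands of a nondegenerate critical point `x`, alone on its
level, carry the bottom class, then `f` has the step property at `x` near `z`. -/
theorem stepP (F : Type*) [Field F] {L : AddSubgroup (ι → ℤ)} {q Q f : (ι → ℝ) → ℝ} {R a : ℝ}
    {Z : Finset (ι → ℝ)} (h : Tot L q Q f R a Z) {b : ℕ} {x z : ι → ℝ} (hxZ : x ∈ Z)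
    (hind : sigNeg (hess f x) = b)
    (hnd : sigNeg (hess f x) + sigPos (hess f x) = Fintype.card ι)
    (hone : ∀ z' ∈ Z, f z' = f x → z' = x)
    (hLB : ∀ b₁ b₂, b₁ < f x → f x < b₂ →
      (∀ z' ∈ Z, b₁ ≤ f z' → f z' ≤ b₂ → f z' = f x) →
      ∃ᶠ M : ℕ in atTop, LB F (lam L (2 ^ M)) (Xm q R (2 ^ M)) (Am q Q R a (2 ^ M))
        (Lv q Q f R a b₁ (2 ^ M)) (Lv q Q f R a b₂ (2 ^ M)) b)
    {r₀ : ℝ} (hin : ∀ y ∈ closedBall z r₀, q y < R ∧ -a < Q y) : StepP b r₀ f x z := by
  intro e r ρ β hr hrr hρ hρr hneg hxz hβ hshell p hp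
  by_contra hcon
  push Not at hcon
  obtain ⟨hxc, hxq, hxQ⟩ := h.mem x hxZ
  have fc : Continuous f := h.smooth.continuous
  -- the span
  let T : (Fin b → ℝ) →ₗ[ℝ] (ι → ℝ) :=
    { toFun := comb e
      map_add' := fun u v => comb_add u v
      map_smul' := fun t v => comb_smul t v }
  have hT : ∀ v, T v = comb e v := fun _ => rfl
  have hzz : z ∈ closedBall z r := mem_closedBall_self hr.le
  have hTinj : Function.Injective T := by
    rw [← LinearMap.ker_eq_bot, LinearMap.ker_eq_bot']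
    intro v hv
    by_contra h0
    have h1 := hneg z hzz v h0
    rw [← hT, hv, map_zero] at h1
    simp at h1
  have hVfin : Module.finrank ℝ (LinearMap.range T) = b := by
    rw [LinearMap.finrank_range_of_inj hTinj, Module.finrank_fin_fun]
  have hVneg : ∀ y, ‖y - z‖ ≤ r → ∀ v ∈ LinearMap.range T, v ≠ 0 → D2 f y v v < 0 := by
    rintro y hy v ⟨s, rfl⟩ hv0
    exact hneg y (mem_closedBall_iff_norm.2 hy) s fun h0 => hv0 (by rw [h0, map_zero])
  -- the base point is not in the plane of `x`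
  have hpx : p - x ∉ LinearMap.range T := by
    rintro ⟨s, hs⟩
    have h1 : p + comb e (-s) = x := by
      rw [← hT, map_neg, hs]
      abel
    have h2 := hcon (-s) (by rw [h1]; linarith)
    rw [h1] at h2
    exact lt_asymm h2 hβ
  obtain ⟨k, c1, c2, hcard, h11, h12, h13⟩ := forms_cons (LinearMap.range T) hpx hVfin
  have hadd : ∀ v w : ι → ℝ, ∑ i, c1 i * (v + w) i = ∑ i, c1 i * v i + ∑ i, c1 i * w i := by
    intro v w
    rw [← Finset.sum_add_distrib]
    exact Finset.sum_congr rfl fun i _ => by rw [Pi.add_apply]; ring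
  have hsm : ∀ (t : ℝ) (v : ι → ℝ), ∑ i, c1 i * (t • v) i = t * ∑ i, c1 i * v i := by
    intro t v
    rw [Finset.mul_sum]
    exact Finset.sum_congr rfl fun i _ => by rw [Pi.smul_apply, smul_eq_mul]; ring
  have hval : ∀ v0 ∈ LinearMap.range T, ∀ t : ℝ, ∑ i, c1 i * (v0 + t • (p - x)) i = t := by
    intro v0 hv0 t
    rw [hadd, hsm, h12 v0 hv0, h11, zero_add, mul_one]
  set cc : Fin (k + 1) → ι → ℝ := Fin.cons c1 c2 with hcc
  set φ : (ι → ℝ) → ℝ := fun y => ∑ i, c1 i * (y i - x i) with hφ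
  have hφ' : ∀ y, φ y = ∑ i, c1 i * (y - x) i := fun _ => rfl
  have hl0 : rlin cc x = φ :: rlin c2 x := by
    unfold rlin
    rw [List.ofFn_succ]
    rfl
  have hker : ∀ v, (∀ j, ∑ i, cc j i * v i = 0) ↔ v ∈ LinearMap.range T := by
    intro v
    constructor
    · intro hv
      obtain ⟨v0, hv0, t, rfl⟩ := (h13 v).1 fun j => by simpa [hcc] using hv j.succ
      have h1 : t = 0 := by
        rw [← hval v0 hv0 t]
        simpa [hcc] using hv 0
      rw [h1, zero_smul, add_zero]
      exact hv0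
    · intro hv
      have h1 := (h13 v).2 ⟨v, hv, 0, by rw [zero_smul, add_zero]⟩
      intro j
      refine Fin.cases ?_ (fun j => ?_) j
      · simpa [hcc] using h12 v hv
      · simpa [hcc] using h1 j
  -- the functional at `x`
  obtain ⟨r0, hr0, hstep⟩ := step_ndX F (q := q) (Q := Q) (R := R) (a := a) (L := L) h.smooth
    h.dm.q1.continuous h.dm.Q1.continuous h.dm.qp h.dm.Qp h.per hxc ⟨hxq, hxQ⟩ hcard cc
    (fun v hv h0 => hVneg x (by linarith) v ((hker v).1 hv) h0) (by omega)
  have hd0 : 0 < r / 2 - ‖x - z‖ := by linarith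
  obtain ⟨ρ', hρ', hρ'2⟩ : ∃ ρ', 0 < ρ' ∧ ρ' < min r0 (r / 2 - ‖x - z‖) :=
    exists_between (lt_min hr0 hd0)
  have hρ'3 : ρ' < r0 := hρ'2.trans_le (min_le_left _ _)
  have hρ'4 : ρ' < r / 2 - ‖x - z‖ := hρ'2.trans_le (min_le_right _ _)
  obtain ⟨ε, hε, hstep⟩ := hstep ρ' hρ' hρ'3
  -- strict concavity
  have hconc : ∀ y, ‖y - z‖ ≤ r → y - x ∈ LinearMap.range T → y ≠ x → f y < f x := by
    intro y hy hyV hne
    have h1 := conc_lt h.smooth (v := y - x) hxc fun t ht0 ht1 => by
      refine hVneg _ ?_ _ hyV (sub_ne_zero.2 hne)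
      have e1 : x + t • (y - x) - z = (1 - t) • (x - z) + t • (y - z) := by
        funext i
        simp only [Pi.add_apply, Pi.sub_apply, Pi.smul_apply, smul_eq_mul]
        ring
      rw [e1]
      refine (norm_add_le _ _).trans ?_
      rw [norm_smul, norm_smul, Real.norm_of_nonneg ht0, Real.norm_of_nonneg (sub_nonneg.2 ht1)]
      have e2 : ‖x - z‖ ≤ r := by linarith
      nlinarith
    rwa [add_sub_cancel] at h1
  have hK1 : IsCompact (closedBall z r ∩
      ({y | y - x ∈ LinearMap.range T} ∩ {y | ρ' / 2 ≤ ‖y - x‖})) := by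
    refine (isCompact_closedBall z r).inter_right (IsClosed.inter ?_ ?_)
    · exact (LinearMap.range T).closed_of_finiteDimensional.preimage
        (continuous_id.sub continuous_const)
    · exact isClosed_le continuous_const (by fun_prop)
  obtain ⟨δ1, hδ1, k1⟩ := cpt_list hK1 [] (fun G hG => absurd hG (List.not_mem_nil))
    (ψ := fun y => f x - f y) (continuousOn_const.sub fc.continuousOn) fun y hy _ => by
      refine sub_pos.2 (hconc y (mem_closedBall_iff_norm.1 hy.1) hy.2.1 fun he => ?_)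
      have h2 : ρ' / 2 ≤ ‖y - x‖ := hy.2.2
      rw [he, sub_self, norm_zero] at h2
      linarith
  obtain ⟨η0, hη0, hiso⟩ := val_iso Z f (f x)
  obtain ⟨η, hη, hη2⟩ : ∃ η, 0 < η ∧ η < min (min ε δ1) (min η0 (f x - β)) :=
    exists_between (lt_min (lt_min hε hδ1) (lt_min hη0 (sub_pos.2 hβ)))
  have g1 : η < ε := hη2.trans_le ((min_le_left _ _).trans (min_le_left _ _))
  have g2 : η < δ1 := hη2.trans_le ((min_le_left _ _).trans (min_le_right _ _))
  have g3 : η < η0 := hη2.trans_le ((min_le_right _ _).trans (min_le_left _ _))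
  have g4 : η < f x - β := hη2.trans_le ((min_le_right _ _).trans (min_le_right _ _))
  have hthin : ∀ z' ∈ Z, f x - η ≤ f z' → f z' ≤ f x + η → f z' = f x := by
    intro z' hz' h1 h2
    refine hiso z' hz' ?_
    rw [abs_lt]
    constructor <;> linarith
  have hb1 : f x - η ∉ Z.image f := by
    intro hm
    obtain ⟨z', hz', he⟩ := Finset.mem_image.1 hm
    have := hthin z' hz' he.ge (by linarith)
    linarith
  have hb2 : f x + η ∉ Z.image f := by
    intro hm
    obtain ⟨z', hz', he⟩ := Finset.mem_image.1 hm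
    have := hthin z' hz' (by linarith) he.le
    linarith
  have hrank := h.rank_one F (b₁ := f x - η) (b₂ := f x + η) (by linarith) hb1 hb2 hxZ
    (fun z' hz' h1 h2 => hone z' hz' (hthin z' hz' h1.le h2.le)) hnd
  have hfr := hLB (f x - η) (f x + η) (by linarith) (by linarith) hthin
  -- eventual statements
  have inn : ∀ y, ‖y - z‖ ≤ r → q y ≤ R := fun y hy =>
    (hin y (mem_closedBall_iff_norm.2 (hy.trans hrr))).1.le
  obtain ⟨C, hC, lip⟩ := rlin_lip cc x
  rw [hl0] at lip
  have hlen : (rlin c2 x).length = k := by rw [rlin, List.length_ofFn]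
  have hmemT : ∀ y, (∀ g ∈ rlin c2 x, g y = 0) → ∃ s : Fin b → ℝ,
      y = (x + φ y • (p - x)) + comb e s := by
    intro y hy
    obtain ⟨v0, ⟨s, hs⟩, t, ht⟩ := (h13 (y - x)).1 ((rlin_zero c2 x y).1 hy)
    have h1 : φ y = t := by
      rw [hφ', ht]
      exact hval v0 ⟨s, hs⟩ t
    refine ⟨s, ?_⟩
    rw [h1, ← hT, hs]
    have h2 : y = x + (y - x) := by abel
    rw [h2, ht]
    abel
  have ev1 := enl_cont F (L := L) (Q := Q) (a := a) (z := z) (β := f x - η) (ρ1 := ρ' / 2)
    (ρ := ρ') (r2 := 3 * r / 4) (r3 := r) (l := φ :: rlin c2 x) (b := b) (x := x) fc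
    (by linarith) (by linarith) lip (fun y hy => by
      have e1 : y - z = (y - x) + (x - z) := by abel
      rw [e1]
      linarith [norm_add_le (y - x) (x - z)]) inn (fun y hy hz hρy => by
      have h1 : y - x ∈ LinearMap.range T := (hker _).1 ((rlin_zero cc x y).1 (by rwa [hl0]))
      have h2 := k1 y ⟨mem_closedBall_iff_norm.2 hy, h1, hρy⟩
        (fun G hG => absurd hG (List.not_mem_nil))
      have h3 : δ1 < f x - f y := h2
      linarith) (by rw [List.length_cons, hlen, hcard])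
  have lip' : ∀ g ∈ φ :: (fun y => φ y - 1) :: rlin c2 x, ∀ y y',
      |g y - g y'| ≤ C * ‖y - y'‖ := by
    intro g hg y y'
    rcases List.mem_cons.1 hg with rfl | hg
    · exact lip φ List.mem_cons_self y y'
    rcases List.mem_cons.1 hg with rfl | hg
    · have h1 := lip φ List.mem_cons_self y y'
      have h2 : φ y - 1 - (φ y' - 1) = φ y - φ y' := by ring
      show |φ y - 1 - (φ y' - 1)| ≤ _
      rw [h2]
      exact h1
    · exact lip g (List.mem_cons_of_mem _ hg) y y'
  have ev2 := chg_cont F (L := L) (Q := Q) (a := a) (z := z) (β := f x - η) (r1 := r / 2)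
    (r2 := 3 * r / 4) (r3 := r) (φ := φ) (φ' := fun y => φ y - 1) (l := rlin c2 x) (b := b) fc
    (by linarith) (by linarith) lip' inn (fun y hy1 hy2 hz hmin hmax => by
      obtain ⟨s, hs⟩ := hmemT y hz
      have t0 : 0 ≤ φ y := by
        rcases le_max_iff.1 hmax with h1 | h1
        · exact h1
        · linarith
      have t1 : φ y ≤ 1 := by
        rcases min_le_iff.1 hmin with h1 | h1
        · linarith
        · linarith
      have hbase : ‖x + φ y • (p - x) - z‖ ≤ ρ := by
        have e1 : x + φ y • (p - x) - z = (1 - φ y) • (x - z) + φ y • (p - z) := by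
          funext i
          simp only [Pi.add_apply, Pi.sub_apply, Pi.smul_apply, smul_eq_mul]
          ring
        rw [e1]
        refine (norm_add_le _ _).trans ?_
        rw [norm_smul, norm_smul, Real.norm_of_nonneg t0, Real.norm_of_nonneg (sub_nonneg.2 t1)]
        nlinarith
      have h2 := hshell _ hbase s (by rw [← hs]; exact hy1) (by rw [← hs]; exact hy2)
      rw [← hs] at h2
      linarith) (by rw [hlen, hcard]; ring)
  have ev3 := zero_cont F (L := L) (Q := Q) (a := a) (z := z) (β := f x - η)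
    (r2 := 3 * r / 4) (r3 := r) (l := (fun y => φ y - 1) :: rlin c2 x) (b := b) fc
    (by linarith) (fun g hg => lip' g (List.mem_cons_of_mem _ hg)) inn (fun y hy hz => by
      obtain ⟨s, hs⟩ := hmemT y fun g hg => hz g (List.mem_cons_of_mem _ hg)
      have h1 : φ y - 1 = 0 := hz _ List.mem_cons_self
      have h2 : φ y = 1 := by linarith
      rw [h2, one_smul, add_sub_cancel] at hs
      have h3 := hcon s (by rw [← hs]; exact hy)
      rw [← hs] at h3
      linarith) (by rw [List.length_cons, hlen, hcard])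
  have ev4 := hstep (f x - η) (f x + η) (by linarith) (by linarith) (by linarith) (by linarith)
  have htend : Tendsto (fun M : ℕ => 2 ^ M) atTop atTop :=
    tendsto_pow_atTop_atTop_of_one_lt one_lt_two
  obtain ⟨M, hM0, hM1, hM2, hM3, hM4, hM5⟩ := (hfr.and_eventually (hrank.and
    ((htend.eventually ev1).and ((htend.eventually ev2).and ((htend.eventually ev3).and
      (htend.eventually ev4)))))).exists
  have hHR := hM1 b
  rw [if_pos hind] at hHR
  obtain ⟨⟨u, hu, hd, hne⟩, hex⟩ := hM0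
  have hlast := (last_band_ne (Xm_inv h.dm.qp R (by positivity)) (Am_sub_Lv _ _)
    (Lv_mono q Q f R a (by linarith) _) (Lv_sub_Xm _ _) hu hd hne hex).1
  obtain ⟨y, hy, hy'⟩ := hM5 hHR u hu hd (by
    rw [hl0, ← hM2 u hu, hM3 u hu hd]
    exact hM4 u hu)
  exact hlast y hy hy'

end Pool.Agent.H65.TU
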