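import Pool.Agent.H21.TU.Grd

/-!
# Project TU: the functional of a thin band (grid level)
-/

set_option autoImplicit false

namespace Pool.Agent.H65.TU

open Pool.Agent.H21.TU
open Pool.Agent.H47.ST (Co Simp In dd dX cut co sgn HR tr Inv RK Adj dX_apply dd_apply
  CellA_tr_mem CellA_tr_Simp CellA_tr_In CellA_tr_sgn CellA_tr_erase CellA_In_erase)

/-- rank at most one and a functional which vanishes on the coboundaries -/
theorem rk_one {F E : Type*} [Field F] [AddCommGroup E] [Module F E] {d : E →ₗ[F] E}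
    {B0 B1 : Submodule F E} (h : RK d d B0 B1 ⊥ ⊥ 1) {φ : E → F}
    (hlin : ∀ (c : F) (u v : E), φ (u - c • v) = φ u - c * φ v)
    (hφ : ∀ y ∈ B0, φ (d y) = 0) {ω : E} (hω : ω ∈ B1) (hdω : d ω = 0) (hφω : φ ω ≠ 0) {u : E}
    (hu : u ∈ B1) (hdu : d u = 0) (h0 : φ u = 0) : ∃ y ∈ B0, u = d y := by
  obtain ⟨ℓ, hℓ⟩ := h
  have ha : ℓ ω 0 ≠ 0 := by
    intro h1
    have h2 : ℓ ω = 0 := by
      funext i
      rw [Subsingleton.elim i 0, h1]
      rfl
    obtain ⟨y, hy, hy2⟩ := hℓ ω hω (by rw [hdω]; exact Submodule.zero_mem _) h2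
    rw [Submodule.mem_bot, sub_eq_zero] at hy2
    exact hφω (by rw [hy2]; exact hφ y hy)
  have h1 : ℓ (u - (ℓ u 0 / ℓ ω 0) • ω) = 0 := by
    rw [map_sub, map_smul]
    funext i
    rw [Subsingleton.elim i 0, Pi.sub_apply, Pi.smul_apply, smul_eq_mul, Pi.zero_apply,
      div_mul_cancel₀ _ ha, sub_self]
  obtain ⟨y, hy, hy2⟩ := hℓ (u - (ℓ u 0 / ℓ ω 0) • ω)
    (Submodule.sub_mem _ hu (Submodule.smul_mem _ _ hω))
    (by rw [map_sub, map_smul, hdu, hdω, smul_zero, sub_zero]; exact Submodule.zero_mem _) h1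
  rw [Submodule.mem_bot, sub_eq_zero] at hy2
  have h3 := hφ y hy
  rw [← hy2, hlin, h0, zero_sub, neg_eq_zero, mul_eq_zero] at h3
  rcases h3 with h3 | h3
  · rw [h3, zero_smul, sub_zero] at hy2
    exact ⟨y, hy, hy2⟩
  · exact absurd h3 hφω

variable {ι F : Type*} [Fintype ι] [DecidableEq ι] [Field F]

theorem hat_sub (p : ℕ) (c : F) (u v : Co ι F) : hat p (u - c • v) = hat p u + (-c) • hat p v := by
  funext s
  rw [Pi.add_apply, Pi.smul_apply]
  unfold hat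
  split_ifs
  · rw [Pi.sub_apply, Pi.smul_apply, smul_eq_mul, smul_eq_mul]; ring
  · rw [smul_zero, add_zero]

theorem Phi_hat_sub (R : Finset (ι → ℤ)) (p : ℕ) (l : List ((ι → ℤ) → ℝ)) (c : F)
    (u v : Co ι F) : Phi R p (hat p (u - c • v)) l = Phi R p (hat p u) l -
      c * Phi R p (hat p v) l := by
  rw [hat_sub, Phi_add, Phi_smul]; ring

theorem near_kv (v : ι → ℤ) (π : Fin (Fintype.card ι) ≃ ι) (i : ℕ) : Near (kv v π i) v := by
  have h := (ch_kv v π i).near (i := i) (j := 0) le_rfl (Nat.zero_le _)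
  rwa [kv_zero] at h

/-- a hat does not vanish: the simplex -/
theorem hat_ne {p : ℕ} {u : Co ι F} {s : ℕ → ι → ℤ} (h : hat p u s ≠ 0) :
    (∀ i < p, s i < s (i + 1)) ∧ Ch p s ∧ u ((Finset.range (p + 1)).image s) ≠ 0 := by
  unfold hat at h
  split_ifs at h with h1
  · exact ⟨h1.1, h1.2, h⟩
  · exact absurd rfl h

/-- the functional vanishes on coboundaries -/
theorem Phi_dX {L : AddSubgroup (ι → ℤ)} {B A : Set (ι → ℤ)} {R : Finset (ι → ℤ)} {b : ℕ}
    {l : List ((ι → ℤ) → ℝ)} {δ : ℝ} (hl : Fintype.card ι = b + l.length)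
    (hvar : ∀ g ∈ l, ∀ v w, Near v w → |g v - g w| ≤ δ)
    (c1 : ∀ v ∈ R, (∀ g ∈ l, |g v| ≤ δ) → ∀ w, Near w v → w ∈ B)
    (c2 : ∀ v, ¬ (∀ w, Near w v → w ∈ R) → ¬ (∀ w, Near w v → w ∉ R) →
      (∀ g ∈ l, |g v| ≤ δ) → ∀ w, Near w v → w ∈ A)
    {y : Co ι F} (hy : y ∈ co (F := F) L B A b) : Phi R b (hat b (dX B y)) l = 0 := by
  classical
  cases b with
  | zero =>
    rw [Pool.Agent.H47.ST.co_zero, Submodule.mem_bot] at hy
    rw [hy, map_zero]
    have h1 : hat 0 (0 : Co ι F) = 0 := by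
      funext s
      unfold hat
      split_ifs <;> rfl
    have h2 := Phi_smul (F := F) R 0 0 (hat 0 (0 : Co ι F)) l
    rw [h1, smul_zero, zero_mul] at h2
    rw [h1]
    exact h2
  | succ p =>
    have h1 : Phi R (p + 1) (hat (p + 1) (dX B y)) l = Phi R (p + 1) (d p (hat p y)) l := by
      refine Phi_congr R hl hvar fun v hv π hg => ?_
      have hp : p + 1 ≤ Fintype.card ι := by omega
      rw [d_hat_kv v π hp, hat_kv v π hp, hat_kv v π hp, dX_apply, if_pos]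
      · rfl
      · refine ⟨?_, fun w hw => ?_⟩
        · exact (en_image (p := p + 1) (s := kv v π) (fun i hi => kv_lt v π (by omega))
            (ch_kv v π (p + 1))).1
        · obtain ⟨i, -, rfl⟩ := Finset.mem_image.1 hw
          exact c1 v hv hg _ (near_kv v π i)
    rw [h1]
    refine Phi_exact R (Dep.hat p y) hl hvar fun s hs hne hg => ?_
    by_contra hcon
    push Not at hcon
    obtain ⟨⟨w1, hw1, hw1'⟩, w2, hw2, hw2'⟩ := hcon
    have h3 := c2 (s 0) (fun h => hw1' (h w1 hw1)) (fun h => h w2 hw2 hw2') hg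
    obtain ⟨-, -, h4⟩ := hat_ne hne
    refine (hy.2 _ h4).2.1 fun w hw => ?_
    obtain ⟨i, hi, rfl⟩ := Finset.mem_image.1 hw
    rw [Finset.mem_range] at hi
    exact h3 _ (hs.near (by omega) (by omega))

/-- if a product of walls does not vanish, the walls are small -/
theorem wH_small {l : List ((ι → ℤ) → ℝ)} {δ : ℝ}
    (hvar : ∀ g ∈ l, ∀ v w, Near v w → |g v - g w| ≤ δ) {s : ℕ → ι → ℤ}
    (hs : Ch l.length s) (h : wH (l.map (st F)) s ≠ 0) : ∀ g ∈ l, |g (s 0)| ≤ δ := by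
  intro g hg
  obtain ⟨i, hi, hne⟩ := wH_ne h (st F g) (List.mem_map.2 ⟨g, hg, rfl⟩)
  rw [List.length_map] at hi
  exact st_ch (hvar g hg) (hs.near (by omega) (by omega)) (hs.near (by omega) (by omega)) hne

/-- **The functional of a thin band, grid version.** -/
theorem step_grid {L : AddSubgroup (ι → ℤ)} {B A U : Set (ι → ℤ)} {R : Finset (ι → ℤ)} {b : ℕ}
    {l l' : List ((ι → ℤ) → ℝ)} {δ : ℝ} (hB : Inv L B) (hA : Inv L A)
    (hl : Fintype.card ι = b + l.length) (hl' : l'.length = b)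
    (hvar : ∀ g ∈ l, ∀ v w, Near v w → |g v - g w| ≤ δ)
    (hvar' : ∀ g ∈ l', ∀ v w, Near v w → |g v - g w| ≤ δ)
    (c1 : ∀ v ∈ R, (∀ g ∈ l, |g v| ≤ δ) → ∀ w, Near w v → w ∈ B)
    (c2 : ∀ v, ¬ (∀ w, Near w v → w ∈ R) → ¬ (∀ w, Near w v → w ∉ R) →
      (∀ g ∈ l, |g v| ≤ δ) → ∀ w, Near w v → w ∈ A)
    (c3 : ∀ v ∈ R, ∀ w, Near w v → w ∈ U) (c4 : Sepd L U)
    (c5 : ∀ v ∈ U, (∀ g ∈ l', |g v| ≤ δ) → v ∈ B → ∀ w, Near w v → w ∈ U)
    (c6 : ∀ v ∈ U, (∀ g ∈ l', |g v| ≤ δ) → v ∉ A)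
    (hphi : Phi (F := F) R 0 (fun _ => 1) (l' ++ l) ≠ 0) (hHR : HR F L B A b 1)
    {u : Co ι F} (hu : u ∈ co (F := F) L B A (b + 1)) (hdu : dX B u = 0)
    (h0 : Phi R b (hat b u) l = 0) : ∃ y ∈ co (F := F) L B A b, u = dX B y := by
  have hsm : ∀ s : ℕ → ι → ℤ, Ch b s → wH (l'.map (st F)) s ≠ 0 → ∀ g ∈ l', |g (s 0)| ≤ δ := by
    intro s hs h
    exact wH_small hvar' (by rw [hl']; exact hs) h
  have hdep : Dep b (wH (l'.map (st F))) := by
    have := Dep.wH (l'.map (st F))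
    rwa [List.length_map, hl'] at this
  have hdw : d b (wH (l'.map (st F))) = 0 := by
    have := d_wH (l'.map (st F))
    rwa [List.length_map, hl'] at this
  have hω : lc L B U b (wH (l'.map (st F))) ∈ co (F := F) L B A (b + 1) :=
    lc_mem hB hA c4 fun s _ h2 h3 h4 => ⟨0, Nat.zero_le _, c6 _ (h3 0 (Nat.zero_le _)).2 (hsm s h2 h4)⟩
  have hdω : dX B (lc L B U b (wH (l'.map (st F)))) = 0 := by
    rw [lc_dX hB c4 hdep fun s _ h2 h3 h4 => c5 _ (h3 0 (Nat.zero_le _)).2 (hsm s h2 h4)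
      (h3 0 (Nat.zero_le _)).1, hdw]
    exact lc_zero hB c4 fun _ _ _ _ => rfl
  have hφω : Phi R b (hat b (lc L B U b (wH (l'.map (st F))))) l ≠ 0 := by
    have h1 : Phi R b (hat b (lc L B U b (wH (l'.map (st F))))) l =
        Phi R b (wH (l'.map (st F))) l := by
      refine Phi_congr R hl hvar fun v hv π hg => ?_
      rw [hat_kv v π (by omega)]
      exact lc_apply c4 hdep (fun i hi => kv_lt v π (by omega)) (ch_kv v π b) fun i _ =>
        ⟨c1 v hv hg _ (near_kv v π i), c3 v hv _ (near_kv v π i)⟩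
    have h2 := Phi_wH (F := F) R l' l
    rw [hl'] at h2
    rw [h1, h2]
    exact hphi
  exact rk_one hHR (φ := fun u => Phi R b (hat b u) l) (fun c u v => Phi_hat_sub R b l c u v)
    (fun y hy => Phi_dX hl hvar c1 c2 hy) hω hdω hφω hu hdu h0

end Pool.Agent.H65.TU
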