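import Pool.Agent.H65.TU.Step

/-!
# Project TU: the functional of a thin band (continuous data)
-/

set_option autoImplicit false

namespace Pool.Agent.H65.TU

open Filter Topology
open Pool.Agent.H21.TU
open Pool.Agent.H47.ST (Co Simp In dd dX cut co sgn HR tr Inv Lv lam ps rl PerL)

variable {ι : Type*} [Fintype ι] [DecidableEq ι]

omit [DecidableEq ι] in
/-- a small ball has disjoint translates -/
theorem sepd_ball (L : AddSubgroup (ι → ℤ)) {M : ℕ} (hM : 0 < M) (x : ι → ℝ) {r : ℝ}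
    (hr : r < 1 / 4) : Sepd (lam L M) (bl M x r) := by
  rintro l ⟨k, hk, rfl⟩ v hv hv'
  have hM' : (0 : ℝ) < M := Nat.cast_pos.2 hM
  have h1 : ‖ps M v - x‖ ≤ r := hv
  have h2 : ‖ps M (v + (M : ℤ) • k) - x‖ ≤ r := hv'
  have h3 : k = 0 := by
    funext i
    have h4 := (norm_le_pi_norm (ps M v - x) i).trans h1
    have h5 := (norm_le_pi_norm (ps M (v + (M : ℤ) • k) - x) i).trans h2
    have e4 : (ps M v - x) i = (v i : ℝ) / M - x i := rfl
    have e5 : (ps M (v + (M : ℤ) • k) - x) i = (v i : ℝ) / M + k i - x i := by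
      simp only [Pi.sub_apply, ps, Pi.add_apply, Pi.smul_apply, smul_eq_mul]
      push_cast
      field_simp
    rw [e4, Real.norm_eq_abs, abs_le] at h4
    rw [e5, Real.norm_eq_abs, abs_le] at h5
    have h6 : (k i : ℝ) < 1 := by linarith [h4.1, h5.2]
    have h7 : (-1 : ℝ) < k i := by linarith [h4.2, h5.1]
    have h8 : k i < 1 := by exact_mod_cast h6
    have h9 : -1 < k i := by exact_mod_cast h7
    show k i = 0
    omega
  rw [h3, smul_zero]

/-- **The functional of a thin band, continuous data.** -/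
theorem step_cont (F : Type*) [Field F] {L : AddSubgroup (ι → ℤ)} {q Q f : (ι → ℝ) → ℝ}
    {R a : ℝ} {x : ι → ℝ} {α β ρ1 ρ ρ0 C : ℝ} {l l' : List ((ι → ℝ) → ℝ)} {b : ℕ}
    (fc : Continuous f) (qp : PerL L q) (Qp : PerL L Q) (fp : PerL L f)
    (h1 : ρ1 < ρ) (h2 : ρ < ρ0) (h3 : ρ0 < 1 / 4)
    (lip : ∀ g ∈ l ++ l', ∀ y y', |g y - g y'| ≤ C * ‖y - y'‖)
    (inn : ∀ y ∈ Metric.closedBall x ρ0, q y < R ∧ -a < Q y)
    (Em : ∀ y ∈ Metric.closedBall x ρ0, (∀ g ∈ l, g y = 0) →
      f y < β ∧ (ρ1 ≤ ‖y - x‖ → f y < α))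
    (Ep : ∀ y ∈ Metric.closedBall x ρ0, (∀ g ∈ l', g y = 0) →
      α < f y ∧ (ρ1 ≤ ‖y - x‖ → β < f y))
    (hl : Fintype.card ι = b + l.length) (hl' : l'.length = b)
    (hphi : ∀ᶠ M : ℕ in atTop, Phi (F := F) (blf M x ρ) 0 (fun _ => 1)
      ((l' ++ l).map (gr M)) ≠ 0) :
    ∀ᶠ M : ℕ in atTop, HR F (lam L M) (Lv q Q f R a β M) (Lv q Q f R a α M) b 1 →
      ∀ u ∈ co (F := F) (lam L M) (Lv q Q f R a β M) (Lv q Q f R a α M) (b + 1),
        dX (Lv q Q f R a β M) u = 0 →
        Phi (blf M x ρ) b (hat b u) (l.map (gr M)) = 0 →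
        ∃ y ∈ co (F := F) (lam L M) (Lv q Q f R a β M) (Lv q Q f R a α M) b,
          u = dX (Lv q Q f R a β M) y := by
  have hc0 : IsCompact (Metric.closedBall x ρ0) := isCompact_closedBall x ρ0
  have hc1 : IsCompact (Metric.closedBall x ρ0 ∩ {y | ρ1 ≤ ‖y - x‖}) :=
    hc0.inter_right (isClosed_le continuous_const (continuous_id.sub continuous_const).norm)
  have hcl : ∀ g ∈ l ++ l', Continuous g := by
    intro g hg
    have hC : ∀ y y', dist (g y) (g y') ≤ max C 0 * dist y y' := by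
      intro y y'
      rw [Real.dist_eq, dist_eq_norm]
      exact (lip g hg y y').trans (mul_le_mul_of_nonneg_right (le_max_left _ _) (norm_nonneg _))
    exact (LipschitzWith.of_dist_le_mul (K := ⟨max C 0, le_max_right _ _⟩) hC).continuous
  obtain ⟨δ1, hδ1, k1⟩ := cpt_list hc0 l
    (fun g hg => (hcl g (List.mem_append_left _ hg)).continuousOn) (ψ := fun y => β - f y)
    (continuousOn_const.sub fc.continuousOn) fun y hy hz => sub_pos.2 (Em y hy hz).1
  obtain ⟨δ2, hδ2, k2⟩ := cpt_list hc1 l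
    (fun g hg => (hcl g (List.mem_append_left _ hg)).continuousOn) (ψ := fun y => α - f y)
    (continuousOn_const.sub fc.continuousOn) fun y hy hz => sub_pos.2 ((Em y hy.1 hz).2 hy.2)
  obtain ⟨δ3, hδ3, k3⟩ := cpt_list hc0 l'
    (fun g hg => (hcl g (List.mem_append_right _ hg)).continuousOn) (ψ := fun y => f y - α)
    (fc.continuousOn.sub continuousOn_const) fun y hy hz => sub_pos.2 (Ep y hy hz).1
  obtain ⟨δ4, hδ4, k4⟩ := cpt_list hc1 l'
    (fun g hg => (hcl g (List.mem_append_right _ hg)).continuousOn) (ψ := fun y => f y - β)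
    (fc.continuousOn.sub continuousOn_const) fun y hy hz => sub_pos.2 ((Ep y hy.1 hz).2 hy.2)
  obtain ⟨δ, hδ, e1, e2, e3, e4⟩ : ∃ δ > 0, 2 * δ ≤ δ1 ∧ 2 * δ ≤ δ2 ∧ δ ≤ δ3 ∧ δ ≤ δ4 := by
    refine ⟨min (min (δ1 / 2) (δ2 / 2)) (min δ3 δ4), by positivity, ?_, ?_, ?_, ?_⟩
    · have : min (min (δ1 / 2) (δ2 / 2)) (min δ3 δ4) ≤ δ1 / 2 :=
        (min_le_left _ _).trans (min_le_left _ _)
      linarith
    · have : min (min (δ1 / 2) (δ2 / 2)) (min δ3 δ4) ≤ δ2 / 2 :=
        (min_le_left _ _).trans (min_le_right _ _)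
      linarith
    · exact (min_le_right _ _).trans (min_le_left _ _)
    · exact (min_le_right _ _).trans (min_le_right _ _)
  obtain ⟨ρ2, hρ2, hρ2'⟩ := exists_between h2
  have hsm1 : ∀ᶠ M : ℕ in atTop, 0 < M ∧ (1 : ℝ) / M ≤ δ / (max C 0 + 1) :=
    one_div_small (div_pos hδ (by positivity))
  filter_upwards [hphi, hsm1, one_div_small (sub_pos.2 h1), one_div_small (sub_pos.2 hρ2),
    one_div_small (sub_pos.2 hρ2'), one_div_small (half_pos (sub_pos.2 h1))]
    with M hphiM m1 m2 m3 m4 m5 hHR u hu hdu h0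
  have hM : 0 < M := m1.1
  have hM' : (0 : ℝ) < 1 / M := by
    have : (0 : ℝ) < M := Nat.cast_pos.2 hM
    positivity
  have hvar : ∀ g ∈ l ++ l', ∀ v w, Near v w → |gr M g v - gr M g w| ≤ δ := by
    intro g hg v w hvw
    refine (lip g hg _ _).trans ?_
    have h4 := ps_near hM hvw
    have h5 : (0 : ℝ) < max C 0 + 1 := by positivity
    calc C * ‖ps M v - ps M w‖ ≤ (max C 0 + 1) * ‖ps M v - ps M w‖ :=
          mul_le_mul_of_nonneg_right ((le_max_left C 0).trans (by linarith)) (norm_nonneg _)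
      _ ≤ (max C 0 + 1) * (δ / (max C 0 + 1)) :=
          mul_le_mul_of_nonneg_left (h4.trans m1.2) h5.le
      _ = δ := by field_simp
  have htri : ∀ v w : ι → ℤ, Near v w → ‖ps M v - x‖ ≤ ‖ps M w - x‖ + 1 / M := by
    intro v w hvw
    have h4 := ps_near hM hvw
    have h5 : ps M v - x = (ps M v - ps M w) + (ps M w - x) := by abel
    rw [h5]
    linarith [norm_add_le (ps M v - ps M w) (ps M w - x)]
  have hfin : ∀ (m : List ((ι → ℝ) → ℝ)) (P : ((ι → ℤ) → ℝ) → Prop),
      (∀ g ∈ m.map (gr M), P g) ↔ ∀ g ∈ m, P (gr M g) := by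
    intro m P
    simp
  have hM2 : (1 : ℝ) / M ≤ (ρ - ρ1) / 2 := m5.2
  refine step_grid (L := lam L M) (U := bl M x ρ2) (R := blf M x ρ) (l := l.map (gr M))
    (l' := l'.map (gr M)) (δ := δ) (Pool.Agent.H47.ST.Lv_inv qp Qp fp R a β hM)
    (Pool.Agent.H47.ST.Lv_inv qp Qp fp R a α hM) (by rw [List.length_map]; exact hl)
    (by rw [List.length_map]; exact hl') ?_ ?_ ?_ ?_ ?_
    (sepd_ball L hM x (by linarith)) ?_ ?_ ?_ hHR hu hdu h0
  · rw [hfin]
    exact fun g hg => hvar g (List.mem_append_left _ hg)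
  · rw [hfin]
    exact fun g hg => hvar g (List.mem_append_right _ hg)
  · intro v hv hg w hw
    rw [hfin] at hg
    rw [mem_blf hM] at hv
    have h4 := htri w v hw
    have h5 : ps M w ∈ Metric.closedBall x ρ0 := by
      rw [mem_closedBall_iff_norm]
      linarith [m3.2]
    obtain ⟨i1, i2⟩ := inn _ h5
    refine ⟨i1.le, Or.inr ?_⟩
    have h6 := k1 _ h5 (fun g hg' => by
      have h7 := hg g hg'
      have h8 := hvar g (List.mem_append_left _ hg') w v hw
      have h9 : |gr M g w| ≤ |gr M g v| + |gr M g w - gr M g v| := by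
        have := abs_add_le (gr M g v) (gr M g w - gr M g v)
        rwa [add_sub_cancel] at this
      show |gr M g w| ≤ δ1
      linarith)
    have h7 : δ1 < β - f (ps M w) := h6
    linarith
  · intro v hv1 hv2 hg w hw
    rw [hfin] at hg
    push Not at hv1 hv2
    obtain ⟨w1, hw1, hw1'⟩ := hv1
    obtain ⟨w2, hw2, hw2'⟩ := hv2
    rw [mem_blf hM, not_le] at hw1'
    rw [mem_blf hM] at hw2'
    have t1 := htri w1 v hw1
    have t2 := htri v w2 hw2.symm
    have t3 := htri w v hw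
    have t4 := htri v w hw.symm
    have h5 : ps M w ∈ Metric.closedBall x ρ0 := by
      rw [mem_closedBall_iff_norm]
      linarith [m3.2, m4.2]
    obtain ⟨i1, i2⟩ := inn _ h5
    refine ⟨i1.le, Or.inr ?_⟩
    have h6 := k2 (ps M w) ⟨h5, by
      show ρ1 ≤ ‖ps M w - x‖
      linarith⟩ (fun g hg' => by
      have h7 := hg g hg'
      have h8 := hvar g (List.mem_append_left _ hg') w v hw
      have h9 : |gr M g w| ≤ |gr M g v| + |gr M g w - gr M g v| := by
        have := abs_add_le (gr M g v) (gr M g w - gr M g v)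
        rwa [add_sub_cancel] at this
      show |gr M g w| ≤ δ2
      linarith)
    have h7 : δ2 < α - f (ps M w) := h6
    linarith
  · intro v hv w hw
    rw [mem_blf hM] at hv
    show ‖ps M w - x‖ ≤ ρ2
    linarith [htri w v hw, m3.2]
  · intro v hv hg hvB w hw
    rw [hfin] at hg
    have hv' : ‖ps M v - x‖ ≤ ρ2 := hv
    have h5 : ps M v ∈ Metric.closedBall x ρ0 := by
      rw [mem_closedBall_iff_norm]
      linarith
    obtain ⟨i1, i2⟩ := inn _ h5
    have h6 : f (ps M v) ≤ β := by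
      rcases hvB.2 with h7 | h7
      · exact absurd h7 (not_le.2 i2)
      · exact h7
    by_cases h7 : ρ1 ≤ ‖ps M v - x‖
    · exfalso
      have h8 := k4 (ps M v) ⟨h5, h7⟩ (fun g hg' => (hg g hg').trans e4)
      have h9 : δ4 < f (ps M v) - β := h8
      linarith
    · show ‖ps M w - x‖ ≤ ρ2
      rw [not_le] at h7
      linarith [htri w v hw, m2.2]
  · intro v hv hg hvA
    rw [hfin] at hg
    have hv' : ‖ps M v - x‖ ≤ ρ2 := hv
    have h5 : ps M v ∈ Metric.closedBall x ρ0 := by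
      rw [mem_closedBall_iff_norm]
      linarith
    obtain ⟨i1, i2⟩ := inn _ h5
    have h8 := k3 (ps M v) h5 (fun g hg' => (hg g hg').trans e3)
    have h9 : δ3 < f (ps M v) - α := h8
    rcases hvA.2 with h7 | h7
    · exact absurd h7 (not_le.2 i2)
    · linarith
  · rw [← List.map_append]
    exact hphiM

end Pool.Agent.H65.TU
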