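import Pool.Agent.H65.TU.StepC

/-!
# Project TU: the functional of a thin band on global cocycles
-/

set_option autoImplicit false

namespace Pool.Agent.H65.TU

open Filter Topology
open Pool.Agent.H21.TU
open Pool.Agent.H47.ST (Co Simp In dd dX cut co sgn HR tr Inv Lv Xm lam ps rl PerL dX_apply
  cut_apply dX_mem CellA_In_erase CellA_tr_In)

section grid

variable {ι F : Type*} [Fintype ι] [Field F]

/-- the part in `B` of a cochain which vanishes on `A` -/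
theorem cut_mem {L : AddSubgroup (ι → ℤ)} {X B A : Set (ι → ℤ)} (hB : Inv L B) {j : ℕ}
    {u : Co ι F} (hu : u ∈ co (F := F) L X A j) : cut (In B) u ∈ co (F := F) L B A j := by
  classical
  obtain ⟨hx1, hx2⟩ := id hu
  refine ⟨fun l hl σ => ?_, fun σ hσ => ?_⟩
  · rw [cut_apply, cut_apply]
    by_cases h1 : In B σ
    · rw [if_pos h1, if_pos ((CellA_tr_In hB hl).2 h1), hx1 l hl]
    · rw [if_neg h1, if_neg (fun h' => h1 ((CellA_tr_In hB hl).1 h'))]
  · rw [cut_apply] at hσ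
    have h1 : In B σ := by
      by_contra h'
      exact hσ (if_neg h')
    rw [if_pos h1] at hσ
    exact ⟨h1, (hx2 σ hσ).2⟩

theorem cut_dX {X B : Set (ι → ℤ)} (hBX : B ⊆ X) {u : Co ι F} (hd : dX X u = 0) :
    dX B (cut (In B) u) = 0 := by
  classical
  have hIn : ∀ σ : Finset (ι → ℤ), In B σ → In X σ := fun σ hσ =>
    ⟨hσ.1, fun v hv => hBX (hσ.2 v hv)⟩
  ext σ
  rw [dX_apply]
  split_ifs with h1
  · have h2 : dX X u σ = 0 := by rw [hd]; rfl
    rw [dX_apply, if_pos (hIn σ h1)] at h2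
    rw [Pi.zero_apply, ← h2]
    refine Finset.sum_congr rfl fun v _ => ?_
    rw [cut_apply, if_pos (CellA_In_erase h1 v)]
  · rfl

theorem cut_exact {L : AddSubgroup (ι → ℤ)} {X B A : Set (ι → ℤ)} (hX : Inv L X)
    (hBX : B ⊆ X) {b : ℕ} {u : Co ι F} (hu : u ∈ co (F := F) L X A (b + 1))
    {y : Co ι F} (hy : y ∈ co (F := F) L B A b) (h : cut (In B) u = dX B y) :
    y ∈ co (F := F) L X A b ∧ u - dX X y ∈ co (F := F) L X B (b + 1) := by
  classical
  have hIn : ∀ σ : Finset (ι → ℤ), In B σ → In X σ := fun σ hσ =>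
    ⟨hσ.1, fun v hv => hBX (hσ.2 v hv)⟩
  have hyX : y ∈ co (F := F) L X A b :=
    ⟨hy.1, fun σ hσ => ⟨hIn σ (hy.2 σ hσ).1, (hy.2 σ hσ).2⟩⟩
  refine ⟨hyX, ?_⟩
  have h1 : u - dX X y ∈ co (F := F) L X A (b + 1) := Submodule.sub_mem _ hu (dX_mem hX hyX)
  refine ⟨h1.1, fun σ hσ => ⟨(h1.2 σ hσ).1, fun h2 => hσ ?_, (h1.2 σ hσ).2.2⟩⟩
  have h3 : In B σ := ⟨(h1.2 σ hσ).1.1, h2⟩
  have h4 := congrFun h σ
  rw [cut_apply, if_pos h3, dX_apply, if_pos h3] at h4
  rw [Pi.sub_apply, dX_apply, if_pos (hIn σ h3), h4, sub_self]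

end grid

variable {ι F : Type*} [Fintype ι] [DecidableEq ι] [Field F]

/-- the value of a hat on a simplex with vertices in `A` -/
theorem hat_zero {L : AddSubgroup (ι → ℤ)} {X A : Set (ι → ℤ)} {b : ℕ} {u : Co ι F}
    (hu : u ∈ co (F := F) L X A (b + 1)) {s : ℕ → ι → ℤ} (hs : Ch b s)
    (h : ∀ w, Near w (s 0) → w ∈ A) : hat b u s = 0 := by
  by_contra hne
  obtain ⟨-, -, h4⟩ := hat_ne hne
  refine (hu.2 _ h4).2.1 fun w hw => ?_
  obtain ⟨i, hi, rfl⟩ := Finset.mem_image.1 hw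
  rw [Finset.mem_range] at hi
  exact h _ (hs.near (by omega) (by omega))

theorem Phi_zero (R : Finset (ι → ℤ)) (p : ℕ) (l : List ((ι → ℤ) → ℝ)) :
    Phi (F := F) R p 0 l = 0 := by
  have h2 := Phi_smul (F := F) R p 0 0 l
  rwa [smul_zero, zero_mul] at h2

/-- If the walls meet only in `A`, the functional vanishes. -/
theorem Phi_eq_zero {L : AddSubgroup (ι → ℤ)} {X A : Set (ι → ℤ)} {R : Finset (ι → ℤ)} {b : ℕ}
    {l : List ((ι → ℤ) → ℝ)} {δ : ℝ} (hl : Fintype.card ι = b + l.length)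
    (hvar : ∀ g ∈ l, ∀ v w, Near v w → |g v - g w| ≤ δ)
    {u : Co ι F} (hu : u ∈ co (F := F) L X A (b + 1))
    (h : ∀ v ∈ R, (∀ g ∈ l, |g v| ≤ δ) → ∀ w, Near w v → w ∈ A) :
    Phi R b (hat b u) l = 0 := by
  rw [← Phi_zero (F := F) R b l]
  refine Phi_congr R hl hvar fun v hv π hg => ?_
  rw [hat_zero hu (ch_kv v π b) (by rw [kv_zero]; exact h v hv hg)]
  rfl

/-- enlarging the region -/
theorem Phi_enlarge {L : AddSubgroup (ι → ℤ)} {X A : Set (ι → ℤ)} {R1 R2 : Finset (ι → ℤ)}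
    (hR : R1 ⊆ R2) {b : ℕ} {l : List ((ι → ℤ) → ℝ)} {δ : ℝ}
    (hl : Fintype.card ι = b + l.length)
    (hvar : ∀ g ∈ l, ∀ v w, Near v w → |g v - g w| ≤ δ)
    {u : Co ι F} (hu : u ∈ co (F := F) L X A (b + 1))
    (h : ∀ v ∈ R2, v ∉ R1 → (∀ g ∈ l, |g v| ≤ δ) → ∀ w, Near w v → w ∈ A) :
    Phi R2 b (hat b u) l = Phi R1 b (hat b u) l := by
  classical
  have h1 : Phi R2 b (hat b u) l =
      Phi R2 b (fun s => if s 0 ∈ R1 then hat b u s else 0) l := by
    refine Phi_congr R2 hl hvar fun v hv π hg => ?_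
    by_cases h2 : v ∈ R1
    · show _ = if kv v π 0 ∈ R1 then _ else _
      rw [kv_zero, if_pos h2]
    · show _ = if kv v π 0 ∈ R1 then _ else _
      rw [kv_zero, if_neg h2, hat_zero hu (ch_kv v π b) (by rw [kv_zero]; exact h v hv h2 hg)]
  rw [h1]
  unfold Phi PhiH Pool.Agent.H21.TU.Int
  symm
  refine Finset.sum_subset_zero_on_sdiff hR (fun v hv => ?_) (fun v hv => ?_)
  · rw [Finset.mem_sdiff] at hv
    refine Finset.sum_eq_zero fun π _ => ?_
    unfold cup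
    show _ * ((if kv v π 0 ∈ R1 then _ else _) * _) = 0
    rw [kv_zero, if_neg hv.2, zero_mul, mul_zero]
  · refine Finset.sum_congr rfl fun π _ => ?_
    unfold cup
    show _ = _ * ((if kv v π 0 ∈ R1 then _ else _) * _)
    rw [kv_zero, if_pos hv]

/-- the coboundary of the hat of a closed cochain -/
theorem d_hat_zero {X : Set (ι → ℤ)} {b : ℕ} (hb : b + 1 ≤ Fintype.card ι) {u : Co ι F}
    (hd : dX X u = 0) {v : ι → ℤ} (hv : ∀ w, Near w v → w ∈ X)
    (π : Fin (Fintype.card ι) ≃ ι) : d b (hat b u) (kv v π) = 0 := by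
  classical
  rw [d_hat_kv v π hb, hat_kv v π hb]
  have h1 : In X ((Finset.range (b + 1 + 1)).image (kv v π)) := by
    refine ⟨(en_image (p := b + 1) (s := kv v π) (fun i hi => kv_lt v π (by omega))
      (ch_kv v π (b + 1))).1, fun w hw => ?_⟩
    obtain ⟨i, -, rfl⟩ := Finset.mem_image.1 hw
    exact hv _ (near_kv v π i)
  have h2 := congrFun hd ((Finset.range (b + 1 + 1)).image (kv v π))
  rw [dX_apply, if_pos h1] at h2
  exact h2

/-- one wall is changed -/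
theorem Phi_change {L : AddSubgroup (ι → ℤ)} {X A : Set (ι → ℤ)} {R : Finset (ι → ℤ)} {b : ℕ}
    {l : List ((ι → ℤ) → ℝ)} {φ φ' : (ι → ℤ) → ℝ} {δ : ℝ}
    (hl : Fintype.card ι = b + 1 + l.length)
    (hvar : ∀ g ∈ φ :: φ' :: l, ∀ v w, Near v w → |g v - g w| ≤ δ)
    (hX : ∀ v ∈ R, ∀ w, Near w v → w ∈ X)
    {u : Co ι F} (hu : u ∈ co (F := F) L X A (b + 1)) (hd : dX X u = 0)
    (h : ∀ v, ¬ (∀ w, Near w v → w ∈ R) → ¬ (∀ w, Near w v → w ∉ R) →
      (∀ g ∈ l, |g v| ≤ δ) → min (φ v) (φ' v) ≤ δ → -δ ≤ max (φ v) (φ' v) →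
      ∀ w, Near w v → w ∈ A) :
    Phi R b (hat b u) (φ :: l) = Phi R b (hat b u) (φ' :: l) := by
  have h1 := Phi_replace (F := F) R (Dep.hat b u) (l1 := []) (l2 := l) (f := φ) (f' := φ')
    (by simpa using hl) (δ := δ) (by simpa using hvar)
    (fun v hv π => d_hat_zero (by omega) hd (hX v hv) π) (fun s hs hne hg hmin hmax => by
      by_contra hcon
      push Not at hcon
      obtain ⟨⟨w1, hw1, hw1'⟩, w2, hw2, hw2'⟩ := hcon
      refine hne (hat_zero hu (hs.mono (by simp)) ?_)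
      exact h (s 0) (fun h => hw1' (h w1 hw1)) (fun h => h w2 hw2 hw2') (by simpa using hg)
        hmin hmax)
  simpa using h1

/-- the part in a sublevel of a cochain has the same functional -/
theorem cut_cont (F : Type*) [Field F] {q Q f : (ι → ℝ) → ℝ}
    {R a : ℝ} {x : ι → ℝ} {β ρ ρ0 C : ℝ} {l : List ((ι → ℝ) → ℝ)} {b : ℕ}
    (fc : Continuous f) (h2 : ρ < ρ0)
    (lip : ∀ g ∈ l, ∀ y y', |g y - g y'| ≤ C * ‖y - y'‖)
    (inn : ∀ y ∈ Metric.closedBall x ρ0, q y < R ∧ -a < Q y)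
    (Em : ∀ y ∈ Metric.closedBall x ρ0, (∀ g ∈ l, g y = 0) → f y < β)
    (hl : Fintype.card ι = b + l.length) :
    ∀ᶠ M : ℕ in atTop, ∀ u : Co ι F,
      Phi (blf M x ρ) b (hat b (cut (In (Lv q Q f R a β M)) u)) (l.map (gr M)) =
        Phi (blf M x ρ) b (hat b u) (l.map (gr M)) := by
  classical
  have hc0 : IsCompact (Metric.closedBall x ρ0) := isCompact_closedBall x ρ0
  have hcl : ∀ g ∈ l, Continuous g := by
    intro g hg
    have hC : ∀ y y', dist (g y) (g y') ≤ max C 0 * dist y y' := by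
      intro y y'
      rw [Real.dist_eq, dist_eq_norm]
      exact (lip g hg y y').trans (mul_le_mul_of_nonneg_right (le_max_left _ _) (norm_nonneg _))
    exact (LipschitzWith.of_dist_le_mul (K := ⟨max C 0, le_max_right _ _⟩) hC).continuous
  obtain ⟨δ1, hδ1, k1⟩ := cpt_list hc0 l
    (fun g hg => (hcl g hg).continuousOn) (ψ := fun y => β - f y)
    (continuousOn_const.sub fc.continuousOn) fun y hy hz => sub_pos.2 (Em y hy hz)
  have hsm1 : ∀ᶠ M : ℕ in atTop, 0 < M ∧ (1 : ℝ) / M ≤ (δ1 / 2) / (max C 0 + 1) :=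
    one_div_small (div_pos (half_pos hδ1) (by positivity))
  filter_upwards [hsm1, one_div_small (sub_pos.2 h2)] with M m1 m3 u
  have hM : 0 < M := m1.1
  have hvar : ∀ g ∈ l, ∀ v w, Near v w → |gr M g v - gr M g w| ≤ δ1 / 2 := by
    intro g hg v w hvw
    refine (lip g hg _ _).trans ?_
    have h4 := ps_near hM hvw
    have h5 : (0 : ℝ) < max C 0 + 1 := by positivity
    calc C * ‖ps M v - ps M w‖ ≤ (max C 0 + 1) * ‖ps M v - ps M w‖ :=
          mul_le_mul_of_nonneg_right ((le_max_left C 0).trans (by linarith)) (norm_nonneg _)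
      _ ≤ (max C 0 + 1) * ((δ1 / 2) / (max C 0 + 1)) :=
          mul_le_mul_of_nonneg_left (h4.trans m1.2) h5.le
      _ = δ1 / 2 := by field_simp
  have hfin : ∀ (m : List ((ι → ℝ) → ℝ)) (P : ((ι → ℤ) → ℝ) → Prop),
      (∀ g ∈ m.map (gr M), P g) ↔ ∀ g ∈ m, P (gr M g) := by
    intro m P
    simp
  refine Phi_congr (blf M x ρ) (by rw [List.length_map]; exact hl) (δ := δ1 / 2)
    (by rw [hfin]; exact hvar) fun v hv π hg => ?_
  rw [hfin] at hg
  rw [mem_blf hM] at hv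
  have hbn : b ≤ Fintype.card ι := by omega
  rw [hat_kv v π hbn, hat_kv v π hbn, cut_apply, if_pos]
  refine ⟨(en_image (p := b) (s := kv v π) (fun i hi => kv_lt v π (by omega))
      (ch_kv v π b)).1, fun w hw => ?_⟩
  obtain ⟨i, -, rfl⟩ := Finset.mem_image.1 hw
  have hw : Near (kv v π i) v := near_kv v π i
  have h4 := ps_near hM hw
  have h5 : ps M (kv v π i) ∈ Metric.closedBall x ρ0 := by
    rw [mem_closedBall_iff_norm]
    have h6 : ps M (kv v π i) - x = (ps M (kv v π i) - ps M v) + (ps M v - x) := by abel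
    rw [h6]
    linarith [norm_add_le (ps M (kv v π i) - ps M v) (ps M v - x), m3.2]
  obtain ⟨i1, i2⟩ := inn _ h5
  refine ⟨i1.le, Or.inr ?_⟩
  have h6 := k1 _ h5 (fun g hg' => by
    have h7 := hg g hg'
    have h8 := hvar g hg' (kv v π i) v hw
    have h9 : |gr M g (kv v π i)| ≤ |gr M g v| + |gr M g (kv v π i) - gr M g v| := by
      have := abs_add_le (gr M g v) (gr M g (kv v π i) - gr M g v)
      rwa [add_sub_cancel] at this
    show |gr M g (kv v π i)| ≤ δ1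
    linarith)
  have h7 : δ1 < β - f (ps M (kv v π i)) := h6
  linarith

/-- **The functional of a thin band on global cocycles, continuous data.** -/
theorem step_glob (F : Type*) [Field F] {L : AddSubgroup (ι → ℤ)} {q Q f : (ι → ℝ) → ℝ}
    {R a : ℝ} {x : ι → ℝ} {α β ρ1 ρ ρ0 C : ℝ} {l l' : List ((ι → ℝ) → ℝ)} {b : ℕ}
    (fc : Continuous f) (qp : PerL L q) (Qp : PerL L Q) (fp : PerL L f)
    (h1 : ρ1 < ρ) (h2 : ρ < ρ0) (h3 : ρ0 < 1 / 4)
    (lip : ∀ g ∈ l ++ l', ∀ y y', |g y - g y'| ≤ C * ‖y - y'‖)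
    (inn : ∀ y ∈ Metric.closedBall x ρ0, q y < R ∧ -a < Q y)
    (Em : ∀ y ∈ Metric.closedBall x ρ0, (∀ g ∈ l, g y = 0) →
      f y < β ∧ (ρ1 ≤ ‖y - x‖ → f y < α))
    (Ep : ∀ y ∈ Metric.closedBall x ρ0, (∀ g ∈ l', g y = 0) →
      α < f y ∧ (ρ1 ≤ ‖y - x‖ → β < f y))
    (hl : Fintype.card ι = b + l.length) (hl' : l'.length = b)
    (hphi : ∀ᶠ M : ℕ in atTop, Phi (F := F) (blf M x ρ) 0 (fun _ => 1)
      ((l' ++ l).map (gr M)) ≠ 0) :
    ∀ᶠ M : ℕ in atTop, HR F (lam L M) (Lv q Q f R a β M) (Lv q Q f R a α M) b 1 →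
      ∀ u ∈ co (F := F) (lam L M) (Xm q R M) (Lv q Q f R a α M) (b + 1),
        dX (Xm q R M) u = 0 →
        Phi (blf M x ρ) b (hat b u) (l.map (gr M)) = 0 →
        ∃ y ∈ co (F := F) (lam L M) (Xm q R M) (Lv q Q f R a α M) b,
          u - dX (Xm q R M) y ∈
            co (F := F) (lam L M) (Xm q R M) (Lv q Q f R a β M) (b + 1) := by
  filter_upwards [step_cont F fc qp Qp fp h1 h2 h3 lip inn Em Ep hl hl' hphi,
    cut_cont F (Q := Q) (a := a) fc h2 (fun g hg => lip g (List.mem_append_left _ hg)) inn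
      (fun y hy hz => (Em y hy hz).1) hl, eventually_gt_atTop 0] with M hM1 hM2 hM hHR u hu hd h0
  have hBX : Lv q Q f R a β M ⊆ Xm q R M := fun _ h => h.1
  obtain ⟨y, hy, he⟩ := hM1 hHR _ (cut_mem (Pool.Agent.H47.ST.Lv_inv qp Qp fp R a β hM) hu)
    (cut_dX hBX hd) (by rw [hM2]; exact h0)
  exact ⟨y, cut_exact (Pool.Agent.H47.ST.Xm_inv qp R hM) hBX hu hy he⟩

end Pool.Agent.H65.TU
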