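import Pool.Agent.H65.TU.StepC
import Pool.Agent.H21.TU.HomS
import Pool.Agent.H47.QG.Mod

/-!
# Project TU: the functional of a thin band at a nondegenerate critical point
-/

set_option autoImplicit false

namespace Pool.Agent.H65.TU

open Filter Topology QuadraticForm
open Pool.Agent.H21.TU
open Pool.Agent.H47.QG (hess ModR Mod_R_small)
open Pool.Agent.H47.ST (Co Simp In dd dX cut co sgn HR tr Inv Lv lam ps rl PerL)

/-- second order estimate on a subspace on which the Hessian is definite -/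
theorem hess_def {E : Type*} [NormedAddCommGroup E] [NormedSpace ℝ E] [FiniteDimensional ℝ E]
    {f : E → ℝ} (hf : ContDiff ℝ 2 f) {x : E} (hx : fderiv ℝ f x = 0) (K : Submodule ℝ E)
    {σ : ℝ} (hσ : |σ| = 1) (hK : ∀ v ∈ K, v ≠ 0 → 0 < σ * hess f x v) :
    ∃ c > 0, ∃ r > 0, ∀ v ∈ K, ‖v‖ ≤ r → c * ‖v‖ ^ 2 ≤ σ * (f (x + v) - f x) := by
  have hcont : Continuous fun v => σ * hess f x v := by
    have h1 : (fun v => σ * hess f x v) = fun v => σ * fderiv ℝ (fderiv ℝ f) x v v := by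
      funext v
      rw [Pool.Agent.H47.QG.hess_apply]
    rw [h1]
    exact continuous_const.mul
      ((fderiv ℝ (fderiv ℝ f) x).continuous.clm_apply continuous_id)
  have hcpt : IsCompact ((K : Set E) ∩ Metric.sphere 0 1) :=
    (isCompact_sphere (0 : E) 1).inter_left K.closed_of_finiteDimensional
  obtain ⟨m, hm, hm2⟩ : ∃ m > 0, ∀ v ∈ K, ‖v‖ = 1 → m ≤ σ * hess f x v := by
    rcases ((K : Set E) ∩ Metric.sphere 0 1).eq_empty_or_nonempty with he | hne
    · refine ⟨1, one_pos, fun v hv hv1 => ?_⟩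
      have : v ∈ ((K : Set E) ∩ Metric.sphere 0 1) := ⟨hv, by simpa using hv1⟩
      rw [he] at this
      exact absurd this (Set.notMem_empty v)
    · obtain ⟨v0, hv0, hmin⟩ := hcpt.exists_isMinOn hne hcont.continuousOn
      have h1 : v0 ≠ 0 := by
        intro h0
        have h2 := hv0.2
        rw [h0] at h2
        simp at h2
      exact ⟨_, hK v0 hv0.1 h1, fun v hv hv1 => hmin ⟨hv, by simpa using hv1⟩⟩
  have hq : ∀ v ∈ K, m * ‖v‖ ^ 2 ≤ σ * hess f x v := by
    intro v hv
    by_cases h0 : v = 0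
    · rw [h0, norm_zero, QuadraticMap.map_zero]
      simp
    · have h1 : 0 < ‖v‖ := norm_pos_iff.2 h0
      have h2 := hm2 (‖v‖⁻¹ • v) (K.smul_mem _ hv) (by
        rw [norm_smul, norm_inv, norm_norm, inv_mul_cancel₀ h1.ne'])
      rw [QuadraticMap.map_smul, smul_eq_mul] at h2
      have h3 : σ * (‖v‖⁻¹ * ‖v‖⁻¹ * hess f x v) = (σ * hess f x v) / ‖v‖ ^ 2 := by
        field_simp
      rw [h3, le_div_iff₀ (by positivity)] at h2
      exact h2
  obtain ⟨s, hs, hs2⟩ := Mod_R_small hf x hx (m / 4) (by positivity)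
  refine ⟨m / 4, by positivity, s, hs, fun v hv hvs => ?_⟩
  have h1 := (hs2 v hvs).1
  have h2 := hq v hv
  have h3 : σ * (f (x + v) - f x) = σ * hess f x v / 2 + σ * ModR f x v := by
    unfold ModR
    ring
  have h4 : |σ * ModR f x v| ≤ m / 4 * ‖v‖ ^ 2 := by
    rw [abs_mul, hσ, one_mul]
    exact h1
  have h5 := (abs_le.1 h4).1
  rw [h3]
  nlinarith

variable {ι : Type*} [Fintype ι] [DecidableEq ι]

/-- a subspace as the common kernel of forms -/
theorem forms_of {b : ℕ} (V : Submodule ℝ (ι → ℝ))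
    (hV : Module.finrank ℝ V + b = Fintype.card ι) :
    ∃ c : Fin b → ι → ℝ, ∀ v, (∀ j, ∑ i, c j i * v i = 0) ↔ v ∈ V := by
  have h1 : Module.finrank ℝ ((ι → ℝ) ⧸ V) = Module.finrank ℝ (Fin b → ℝ) := by
    have h2 := V.finrank_quotient_add_finrank
    rw [Module.finrank_fintype_fun_eq_card] at h2
    rw [Module.finrank_fin_fun]
    omega
  let e : ((ι → ℝ) ⧸ V) ≃ₗ[ℝ] (Fin b → ℝ) := LinearEquiv.ofFinrankEq _ _ h1
  let T : (ι → ℝ) →ₗ[ℝ] (Fin b → ℝ) := e.toLinearMap ∘ₗ V.mkQ
  have hT : ∀ v j, T v j = ∑ i, T (Pi.single i 1) j * v i := by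
    intro v j
    have h3 : v = ∑ i, v i • (Pi.single i (1 : ℝ) : ι → ℝ) := by
      funext k
      rw [Finset.sum_apply]
      simp [Pi.single_apply]
    conv_lhs => rw [h3]
    rw [map_sum, Finset.sum_apply]
    refine Finset.sum_congr rfl fun i _ => ?_
    rw [map_smul, Pi.smul_apply, smul_eq_mul, mul_comm]
  refine ⟨fun j i => T (Pi.single i 1) j, fun v => ?_⟩
  have h4 : (∀ j, ∑ i, T (Pi.single i 1) j * v i = 0) ↔ T v = 0 := by
    constructor
    · intro h
      funext j
      rw [hT]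
      exact h j
    · intro h j
      rw [← hT, h]
      rfl
  rw [h4]
  show e (V.mkQ v) = 0 ↔ v ∈ V
  rw [LinearEquiv.map_eq_zero_iff, Submodule.mkQ_apply, Submodule.Quotient.mk_eq_zero]

/-- forms without common zero are independent -/
theorem indep_of {n : ℕ} (hn : n = Fintype.card ι) (c : Fin n → ι → ℝ)
    (h : ∀ v : ι → ℝ, (∀ j, ∑ i, c j i * v i = 0) → v = 0) : LinearIndependent ℝ c := by
  let T : (ι → ℝ) →ₗ[ℝ] (Fin n → ℝ) :=
    { toFun := fun v j => ∑ i, c j i * v i
      map_add' := fun u v => by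
        funext j
        simp only [Pi.add_apply, mul_add, Finset.sum_add_distrib]
      map_smul' := fun t v => by
        funext j
        simp only [Pi.smul_apply, smul_eq_mul, RingHom.id_apply, Finset.mul_sum]
        exact Finset.sum_congr rfl fun i _ => by ring }
  have hinj : Function.Injective T := by
    rw [← LinearMap.ker_eq_bot, LinearMap.ker_eq_bot']
    intro v hv
    exact h v fun j => congrFun hv j
  have hsurj : Function.Surjective T := by
    rw [← LinearMap.injective_iff_surjective_of_finrank_eq_finrank]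
    · exact hinj
    · rw [Module.finrank_fintype_fun_eq_card, Module.finrank_fin_fun, hn]
  rw [Fintype.linearIndependent_iff]
  intro g hg j
  obtain ⟨v, hv⟩ := hsurj g
  have h1 : ∑ j, g j * T v j = 0 := by
    have h2 : ∀ j, g j * T v j = ∑ i, (g j * c j i) * v i := by
      intro j
      show g j * ∑ i, c j i * v i = _
      rw [Finset.mul_sum]
      exact Finset.sum_congr rfl fun i _ => by ring
    rw [Finset.sum_congr rfl fun j _ => h2 j, Finset.sum_comm]
    refine Finset.sum_eq_zero fun i _ => ?_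
    rw [← Finset.sum_mul]
    have h3 := congrFun hg i
    rw [Finset.sum_apply] at h3
    simp only [Pi.smul_apply, smul_eq_mul, Pi.zero_apply] at h3
    rw [h3, zero_mul]
  rw [hv] at h1
  have h4 := (Finset.sum_eq_zero_iff_of_nonneg (fun j _ => mul_self_nonneg (g j))).1 h1 j
    (Finset.mem_univ j)
  exact mul_self_eq_zero.1 h4

/-- two lists of linear functions -/
theorem rlin_append {b k n : ℕ} (h : n = b + k) (c' : Fin b → ι → ℝ) (c : Fin k → ι → ℝ)
    (z : ι → ℝ) : rlin c' z ++ rlin c z =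
      rlin (fun j : Fin n => Fin.append c' c (Fin.cast h j)) z := by
  subst h
  unfold rlin
  rw [← List.ofFn_fin_append]
  congr 1
  funext j
  refine Fin.addCases (fun i => ?_) (fun i => ?_) j
  · simp
  · simp

theorem rlin_lip {k : ℕ} (c : Fin k → ι → ℝ) (z : ι → ℝ) : ∃ C, 0 ≤ C ∧ ∀ g ∈ rlin c z,
    ∀ y y', |g y - g y'| ≤ C * ‖y - y'‖ := by
  refine ⟨∑ j, ∑ i, |c j i|, Finset.sum_nonneg fun j _ => Finset.sum_nonneg fun i _ =>
    abs_nonneg _, fun g hg y y' => ?_⟩
  unfold rlin at hg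
  rw [List.mem_ofFn] at hg
  obtain ⟨j, rfl⟩ := hg
  have h1 : ∑ i, c j i * (y i - z i) - ∑ i, c j i * (y' i - z i) =
      ∑ i, c j i * (y - y') i := by
    rw [← Finset.sum_sub_distrib]
    refine Finset.sum_congr rfl fun i _ => ?_
    rw [Pi.sub_apply]
    ring
  show |∑ i, c j i * (y i - z i) - ∑ i, c j i * (y' i - z i)| ≤ _
  rw [h1]
  calc |∑ i, c j i * (y - y') i| ≤ ∑ i, |c j i * (y - y') i| := Finset.abs_sum_le_sum_abs _ _
    _ ≤ ∑ i, |c j i| * ‖y - y'‖ := by
        refine Finset.sum_le_sum fun i _ => ?_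
        rw [abs_mul]
        exact mul_le_mul_of_nonneg_left (norm_le_pi_norm (y - y') i) (abs_nonneg _)
    _ = (∑ i, |c j i|) * ‖y - y'‖ := by rw [Finset.sum_mul]
    _ ≤ (∑ j, ∑ i, |c j i|) * ‖y - y'‖ := by
        refine mul_le_mul_of_nonneg_right ?_ (norm_nonneg _)
        exact Finset.single_le_sum (f := fun j => ∑ i, |c j i|)
          (fun j _ => Finset.sum_nonneg fun i _ => abs_nonneg _) (Finset.mem_univ j)

theorem rlin_zero {k : ℕ} (c : Fin k → ι → ℝ) (z y : ι → ℝ) :
    (∀ g ∈ rlin c z, g y = 0) ↔ ∀ j, ∑ i, c j i * (y - z) i = 0 := by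
  unfold rlin
  constructor
  · intro h j
    exact h _ (List.mem_ofFn.2 ⟨j, rfl⟩)
  · intro h g hg
    rw [List.mem_ofFn] at hg
    obtain ⟨j, rfl⟩ := hg
    exact h j

/-- **The functional of a thin band at a nondegenerate critical point.** -/
theorem step_nd (F : Type*) [Field F] {L : AddSubgroup (ι → ℤ)} {q Q f : (ι → ℝ) → ℝ}
    {R a : ℝ} {x : ι → ℝ} {b k : ℕ} (hf : ContDiff ℝ 2 f) (qc : Continuous q)
    (Qc : Continuous Q) (qp : PerL L q) (Qp : PerL L Q) (fp : PerL L f)
    (hx : fderiv ℝ f x = 0) (hin : q x < R ∧ -a < Q x) (hbk : Fintype.card ι = b + k)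
    (c : Fin k → ι → ℝ)
    (hneg : ∀ v : ι → ℝ, (∀ j, ∑ i, c j i * v i = 0) → v ≠ 0 → hess f x v < 0)
    (hpos : k ≤ sigPos (hess f x)) :
    ∃ r0 > 0, ∀ ρ, 0 < ρ → ρ < r0 → ∃ ε > 0, ∀ α β, f x - ε < α → α < f x → f x < β →
      β < f x + ε →
      ∀ᶠ M : ℕ in atTop, HR F (lam L M) (Lv q Q f R a β M) (Lv q Q f R a α M) b 1 →
        ∀ u ∈ co (F := F) (lam L M) (Lv q Q f R a β M) (Lv q Q f R a α M) (b + 1),
          dX (Lv q Q f R a β M) u = 0 →
          Phi (blf M x ρ) b (hat b u) ((rlin c x).map (gr M)) = 0 →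
          ∃ y ∈ co (F := F) (lam L M) (Lv q Q f R a β M) (Lv q Q f R a α M) b,
            u = dX (Lv q Q f R a β M) y := by
  -- the negative subspace
  let T : (ι → ℝ) →ₗ[ℝ] (Fin k → ℝ) :=
    { toFun := fun v j => ∑ i, c j i * v i
      map_add' := fun u v => by
        funext j
        simp only [Pi.add_apply, mul_add, Finset.sum_add_distrib]
      map_smul' := fun t v => by
        funext j
        simp only [Pi.smul_apply, smul_eq_mul, RingHom.id_apply, Finset.mul_sum]
        exact Finset.sum_congr rfl fun i _ => by ring }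
  have hKm : ∀ v, v ∈ LinearMap.ker T ↔ ∀ j, ∑ i, c j i * v i = 0 := fun v =>
    ⟨fun h j => congrFun (LinearMap.mem_ker.1 h) j, fun h => LinearMap.mem_ker.2 (funext h)⟩
  obtain ⟨V, hV1, hV2⟩ := exists_finrank_eq_sigPos_and_posDef (hess f x)
  have hVpos : ∀ v ∈ V, v ≠ 0 → 0 < hess f x v := fun v hv h0 =>
    hV2 ⟨v, hv⟩ fun h => h0 (congrArg Subtype.val h)
  have hfk : b ≤ Module.finrank ℝ (LinearMap.ker T) := by
    have h1 := LinearMap.finrank_range_add_finrank_ker T
    have h2 := Submodule.finrank_le (LinearMap.range T)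
    rw [Module.finrank_fin_fun] at h2
    rw [Module.finrank_fintype_fun_eq_card] at h1
    omega
  have hsig : sigPos (hess f x) = k := by
    refine le_antisymm ?_ hpos
    have h1 := sigPos_add_finrank_le_of_nonpos (Q := hess f x) (V := LinearMap.ker T) (by
      intro v hv
      by_cases h0 : v = 0
      · rw [h0, QuadraticMap.map_zero]
      · exact (hneg v ((hKm v).1 hv) h0).le)
    rw [Module.finrank_fintype_fun_eq_card] at h1
    omega
  obtain ⟨c', hc'⟩ := forms_of (b := b) V (by rw [hV1, hsig]; omega)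
  -- estimates
  obtain ⟨m1, hm1, s1, hs1, E1⟩ := hess_def hf hx (LinearMap.ker T) (σ := -1) (by simp)
    fun v hv h0 => by
      have := hneg v ((hKm v).1 hv) h0
      linarith
  obtain ⟨m2, hm2, s2, hs2, E2⟩ := hess_def hf hx V (σ := 1) (by simp)
    fun v hv h0 => by rw [one_mul]; exact hVpos v hv h0
  have hnh : ∀ᶠ y in 𝓝 x, q y < R ∧ -a < Q y :=
    (qc.continuousAt.eventually_lt_const hin.1).and (Qc.continuousAt.eventually_const_lt hin.2)
  obtain ⟨s3, hs3, hs3'⟩ := Metric.nhds_basis_closedBall.eventually_iff.1 hnh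
  obtain ⟨C1, hC1, lip1⟩ := rlin_lip c x
  obtain ⟨C2, hC2, lip2⟩ := rlin_lip c' x
  have hphi : ∀ ρ : ℝ, 0 < ρ → ∀ᶠ M : ℕ in atTop, Phi (F := F) (blf M x ρ) 0 (fun _ => 1)
      ((rlin c' x ++ rlin c x).map (gr M)) ≠ 0 := by
    intro ρ hρ
    have hind : LinearIndependent ℝ (fun j : Fin (Fintype.card ι) =>
        Fin.append c' c (Fin.cast hbk j)) := by
      refine indep_of rfl _ fun v hv => ?_
      have h1 : v ∈ V := (hc' v).1 fun j => by
        have := hv (Fin.cast hbk.symm (Fin.castAdd k j))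
        simpa using this
      have h2 : ∀ j, ∑ i, c j i * v i = 0 := fun j => by
        have := hv (Fin.cast hbk.symm (Fin.natAdd b j))
        simpa using this
      by_contra h0
      exact absurd (hneg v h2 h0) (not_lt.2 (hVpos v h1 h0).le)
    filter_upwards [Phi_rlin F _ hind x hρ] with M hM
    rw [rlin_append hbk]
    rcases hM with hM | hM
    · rw [hM]; exact one_ne_zero
    · rw [hM]; exact neg_ne_zero.2 one_ne_zero
  refine ⟨min (min s1 s2) (min s3 (1 / 8)), by positivity, fun ρ hρ hρr => ?_⟩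
  have r1 : ρ < s1 := hρr.trans_le ((min_le_left _ _).trans (min_le_left _ _))
  have r2 : ρ < s2 := hρr.trans_le ((min_le_left _ _).trans (min_le_right _ _))
  have r3 : ρ < s3 := hρr.trans_le ((min_le_right _ _).trans (min_le_left _ _))
  have r4 : ρ < 1 / 8 := hρr.trans_le ((min_le_right _ _).trans (min_le_right _ _))
  obtain ⟨ρ0, hρ0, hρ0'⟩ := exists_between (lt_min (lt_min r1 r2) (lt_min r3 r4))
  have q1 : ρ0 ≤ s1 := hρ0'.le.trans ((min_le_left _ _).trans (min_le_left _ _))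
  have q2 : ρ0 ≤ s2 := hρ0'.le.trans ((min_le_left _ _).trans (min_le_right _ _))
  have q3 : ρ0 ≤ s3 := hρ0'.le.trans ((min_le_right _ _).trans (min_le_left _ _))
  have q4 : ρ0 ≤ 1 / 8 := hρ0'.le.trans ((min_le_right _ _).trans (min_le_right _ _))
  refine ⟨min m1 m2 * (ρ / 2) ^ 2, by positivity, fun α β hα1 hα2 hβ1 hβ2 => ?_⟩
  have w1 : min m1 m2 * (ρ / 2) ^ 2 ≤ m1 * (ρ / 2) ^ 2 :=
    mul_le_mul_of_nonneg_right (min_le_left _ _) (by positivity)
  have w2 : min m1 m2 * (ρ / 2) ^ 2 ≤ m2 * (ρ / 2) ^ 2 :=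
    mul_le_mul_of_nonneg_right (min_le_right _ _) (by positivity)
  refine step_cont F (ρ1 := ρ / 2) (ρ0 := ρ0) (C := max C1 C2) (l' := rlin c' x) hf.continuous
    qp Qp fp (by linarith) hρ0 (by linarith) ?_ (fun y hy => hs3' (Metric.closedBall_subset_closedBall q3 hy))
    ?_ ?_ (by rw [hbk, rlin, List.length_ofFn]) (by rw [rlin, List.length_ofFn]) (hphi ρ hρ)
  · intro g hg y y'
    rcases List.mem_append.1 hg with hg | hg
    · exact (lip1 g hg y y').trans (mul_le_mul_of_nonneg_right (le_max_left _ _) (norm_nonneg _))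
    · exact (lip2 g hg y y').trans (mul_le_mul_of_nonneg_right (le_max_right _ _) (norm_nonneg _))
  · intro y hy hz
    rw [mem_closedBall_iff_norm] at hy
    have h1 := E1 (y - x) ((hKm _).2 ((rlin_zero c x y).1 hz)) (hy.trans q1)
    rw [add_sub_cancel] at h1
    refine ⟨?_, fun h2 => ?_⟩
    · have h3 : 0 ≤ m1 * ‖y - x‖ ^ 2 := by positivity
      linarith
    · have h3 : m1 * (ρ / 2) ^ 2 ≤ m1 * ‖y - x‖ ^ 2 := by gcongr
      linarith
  · intro y hy hz
    rw [mem_closedBall_iff_norm] at hy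
    have h1 := E2 (y - x) ((hc' _).1 ((rlin_zero c' x y).1 hz)) (hy.trans q2)
    rw [add_sub_cancel] at h1
    refine ⟨?_, fun h2 => ?_⟩
    · have h3 : 0 ≤ m2 * ‖y - x‖ ^ 2 := by positivity
      linarith
    · have h3 : m2 * (ρ / 2) ^ 2 ≤ m2 * ‖y - x‖ ^ 2 := by gcongr
      linarith

end Pool.Agent.H65.TU
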