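import Pool.Agent.H65.TU.StepG
import Pool.Agent.H65.TU.StepN
import Pool.Agent.H93.TU.LastW
import Pool.Agent.H1.TU.StepP

/-!
# Project TU: the planes through the points near a critical point of the last value
-/

set_option autoImplicit false

namespace Pool.Agent.H65.TU

open Filter Topology QuadraticForm Metric
open Pool.Agent.H21.TU
open Pool.Agent.H47.QG (hess ModR Mod_R_small)
open Pool.Agent.H47.ST (Co Simp In dd dX cut co sgn HR tr Inv Lv Am Xm lam ps rl PerL)
open Pool.Agent.H93.TU (Tot LB LB_value last_band_ne Am_sub_Lv Lv_sub_Xm)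
open Pool.Agent.H10.TU (D2 comb comb_add comb_smul comb_sub comb_zero comb_continuous)
open Pool.Agent.H1.TU (StepP)

variable {ι : Type*} [Fintype ι] [DecidableEq ι]

/-- **The functional of a thin band at a nondegenerate critical point, global cocycles.** -/
theorem step_ndX (F : Type*) [Field F] {L : AddSubgroup (ι → ℤ)} {q Q f : (ι → ℝ) → ℝ}
    {R a : ℝ} {x : ι → ℝ} {b k : ℕ} (hf : ContDiff ℝ 2 f) (qc : Continuous q)
    (Qc : Continuous Q) (qp : PerL L q) (Qp : PerL L Q) (fp : PerL L f)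
    (hx : fderiv ℝ f x = 0) (hin : q x < R ∧ -a < Q x) (hbk : Fintype.card ι = b + k)
    (c : Fin k → ι → ℝ)
    (hneg : ∀ v : ι → ℝ, (∀ j, ∑ i, c j i * v i = 0) → v ≠ 0 → hess f x v < 0)
    (hpos : k ≤ sigPos (hess f x)) :
    ∃ r0 > 0, ∀ ρ, 0 < ρ → ρ < r0 → ∃ ε > 0, ∀ α β, f x - ε < α → α < f x → f x < β →
      β < f x + ε →
      ∀ᶠ M : ℕ in atTop, HR F (lam L M) (Lv q Q f R a β M) (Lv q Q f R a α M) b 1 →
        ∀ u ∈ co (F := F) (lam L M) (Xm q R M) (Lv q Q f R a α M) (b + 1),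
          dX (Xm q R M) u = 0 →
          Phi (blf M x ρ) b (hat b u) ((rlin c x).map (gr M)) = 0 →
          ∃ y ∈ co (F := F) (lam L M) (Xm q R M) (Lv q Q f R a α M) b,
            u - dX (Xm q R M) y ∈
              co (F := F) (lam L M) (Xm q R M) (Lv q Q f R a β M) (b + 1) := by
  -- the negative subspace
  let T : (ι → ℝ) →ₗ[ℝ] (Fin k → ℝ) :=
    { toFun := fun v j => ∑ i, c j i * v i
      map_add' := fun u v => by
        funext j
        simp only [Pi.add_apply, mul_add, Finset.sum_add_distrib]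
      map_smul' := fun t v => by
        funext j
        simp only [Pi.smul_apply, smul_eq_mul, RingHom.id_apply, Finset.mul_sum]
        exact Finset.sum_congr rfl fun i _ => by ring }
  have hKm : ∀ v, v ∈ LinearMap.ker T ↔ ∀ j, ∑ i, c j i * v i = 0 := fun v =>
    ⟨fun h j => congrFun (LinearMap.mem_ker.1 h) j, fun h => LinearMap.mem_ker.2 (funext h)⟩
  obtain ⟨V, hV1, hV2⟩ := exists_finrank_eq_sigPos_and_posDef (hess f x)
  have hVpos : ∀ v ∈ V, v ≠ 0 → 0 < hess f x v := fun v hv h0 =>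
    hV2 ⟨v, hv⟩ fun h => h0 (congrArg Subtype.val h)
  have hfk : b ≤ Module.finrank ℝ (LinearMap.ker T) := by
    have h1 := LinearMap.finrank_range_add_finrank_ker T
    have h2 := Submodule.finrank_le (LinearMap.range T)
    rw [Module.finrank_fin_fun] at h2
    rw [Module.finrank_fintype_fun_eq_card] at h1
    omega
  have hsig : sigPos (hess f x) = k := by
    refine le_antisymm ?_ hpos
    have h1 := sigPos_add_finrank_le_of_nonpos (Q := hess f x) (V := LinearMap.ker T) (by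
      intro v hv
      by_cases h0 : v = 0
      · rw [h0, QuadraticMap.map_zero]
      · exact (hneg v ((hKm v).1 hv) h0).le)
    rw [Module.finrank_fintype_fun_eq_card] at h1
    omega
  obtain ⟨c', hc'⟩ := forms_of (b := b) V (by rw [hV1, hsig]; omega)
  -- estimates
  obtain ⟨m1, hm1, s1, hs1, E1⟩ := hess_def hf hx (LinearMap.ker T) (σ := -1) (by simp)
    fun v hv h0 => by
      have := hneg v ((hKm v).1 hv) h0
      linarith
  obtain ⟨m2, hm2, s2, hs2, E2⟩ := hess_def hf hx V (σ := 1) (by simp)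
    fun v hv h0 => by rw [one_mul]; exact hVpos v hv h0
  have hnh : ∀ᶠ y in 𝓝 x, q y < R ∧ -a < Q y :=
    (qc.continuousAt.eventually_lt_const hin.1).and (Qc.continuousAt.eventually_const_lt hin.2)
  obtain ⟨s3, hs3, hs3'⟩ := Metric.nhds_basis_closedBall.eventually_iff.1 hnh
  obtain ⟨C1, hC1, lip1⟩ := rlin_lip c x
  obtain ⟨C2, hC2, lip2⟩ := rlin_lip c' x
  have hphi : ∀ ρ : ℝ, 0 < ρ → ∀ᶠ M : ℕ in atTop, Phi (F := F) (blf M x ρ) 0 (fun _ => 1)
      ((rlin c' x ++ rlin c x).map (gr M)) ≠ 0 := by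
    intro ρ hρ
    have hind : LinearIndependent ℝ (fun j : Fin (Fintype.card ι) =>
        Fin.append c' c (Fin.cast hbk j)) := by
      refine indep_of rfl _ fun v hv => ?_
      have h1 : v ∈ V := (hc' v).1 fun j => by
        have := hv (Fin.cast hbk.symm (Fin.castAdd k j))
        simpa using this
      have h2 : ∀ j, ∑ i, c j i * v i = 0 := fun j => by
        have := hv (Fin.cast hbk.symm (Fin.natAdd b j))
        simpa using this
      by_contra h0
      exact absurd (hneg v h2 h0) (not_lt.2 (hVpos v h1 h0).le)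
    filter_upwards [Phi_rlin F _ hind x hρ] with M hM
    rw [rlin_append hbk]
    rcases hM with hM | hM
    · rw [hM]; exact one_ne_zero
    · rw [hM]; exact neg_ne_zero.2 one_ne_zero
  refine ⟨min (min s1 s2) (min s3 (1 / 8)), by positivity, fun ρ hρ hρr => ?_⟩
  have r1 : ρ < s1 := hρr.trans_le ((min_le_left _ _).trans (min_le_left _ _))
  have r2 : ρ < s2 := hρr.trans_le ((min_le_left _ _).trans (min_le_right _ _))
  have r3 : ρ < s3 := hρr.trans_le ((min_le_right _ _).trans (min_le_left _ _))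
  have r4 : ρ < 1 / 8 := hρr.trans_le ((min_le_right _ _).trans (min_le_right _ _))
  obtain ⟨ρ0, hρ0, hρ0'⟩ := exists_between (lt_min (lt_min r1 r2) (lt_min r3 r4))
  have q1 : ρ0 ≤ s1 := hρ0'.le.trans ((min_le_left _ _).trans (min_le_left _ _))
  have q2 : ρ0 ≤ s2 := hρ0'.le.trans ((min_le_left _ _).trans (min_le_right _ _))
  have q3 : ρ0 ≤ s3 := hρ0'.le.trans ((min_le_right _ _).trans (min_le_left _ _))
  have q4 : ρ0 ≤ 1 / 8 := hρ0'.le.trans ((min_le_right _ _).trans (min_le_right _ _))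
  refine ⟨min m1 m2 * (ρ / 2) ^ 2, by positivity, fun α β hα1 hα2 hβ1 hβ2 => ?_⟩
  have w1 : min m1 m2 * (ρ / 2) ^ 2 ≤ m1 * (ρ / 2) ^ 2 :=
    mul_le_mul_of_nonneg_right (min_le_left _ _) (by positivity)
  have w2 : min m1 m2 * (ρ / 2) ^ 2 ≤ m2 * (ρ / 2) ^ 2 :=
    mul_le_mul_of_nonneg_right (min_le_right _ _) (by positivity)
  refine step_glob F (ρ1 := ρ / 2) (ρ0 := ρ0) (C := max C1 C2) (l' := rlin c' x) hf.continuous
    qp Qp fp (by linarith) hρ0 (by linarith) ?_ (fun y hy => hs3' (Metric.closedBall_subset_closedBall q3 hy))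
    ?_ ?_ (by rw [hbk, rlin, List.length_ofFn]) (by rw [rlin, List.length_ofFn]) (hphi ρ hρ)
  · intro g hg y y'
    rcases List.mem_append.1 hg with hg | hg
    · exact (lip1 g hg y y').trans (mul_le_mul_of_nonneg_right (le_max_left _ _) (norm_nonneg _))
    · exact (lip2 g hg y y').trans (mul_le_mul_of_nonneg_right (le_max_right _ _) (norm_nonneg _))
  · intro y hy hz
    rw [mem_closedBall_iff_norm] at hy
    have h1 := E1 (y - x) ((hKm _).2 ((rlin_zero c x y).1 hz)) (hy.trans q1)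
    rw [add_sub_cancel] at h1
    refine ⟨?_, fun h2 => ?_⟩
    · have h3 : 0 ≤ m1 * ‖y - x‖ ^ 2 := by positivity
      linarith
    · have h3 : m1 * (ρ / 2) ^ 2 ≤ m1 * ‖y - x‖ ^ 2 := by gcongr
      linarith
  · intro y hy hz
    rw [mem_closedBall_iff_norm] at hy
    have h1 := E2 (y - x) ((hc' _).1 ((rlin_zero c' x y).1 hz)) (hy.trans q2)
    rw [add_sub_cancel] at h1
    refine ⟨?_, fun h2 => ?_⟩
    · have h3 : 0 ≤ m2 * ‖y - x‖ ^ 2 := by positivity
      linarith
    · have h3 : m2 * (ρ / 2) ^ 2 ≤ m2 * ‖y - x‖ ^ 2 := by gcongr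
      linarith


/-- near the common zeros -/
theorem near_lt {f : (ι → ℝ) → ℝ} (fc : Continuous f) {K : Set (ι → ℝ)} (hK : IsCompact K)
    {l : List ((ι → ℝ) → ℝ)} {β : ℝ} (hc : ∀ g ∈ l, Continuous g)
    (h : ∀ y ∈ K, (∀ g ∈ l, g y = 0) → f y < β) :
    ∃ δ > 0, ∀ y ∈ K, (∀ g ∈ l, |g y| ≤ δ) → f y < β := by
  obtain ⟨δ, hδ, k⟩ := cpt_list hK l (fun g hg => (hc g hg).continuousOn) (ψ := fun y => β - f y)
    (continuousOn_const.sub fc.continuousOn) fun y hy hz => sub_pos.2 (h y hy hz)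
  refine ⟨δ, hδ, fun y hy hz => ?_⟩
  have h1 : δ < β - f y := k y hy hz
  linarith

theorem lip_cont {C : ℝ} {g : (ι → ℝ) → ℝ} (h : ∀ y y', |g y - g y'| ≤ C * ‖y - y'‖) :
    Continuous g := by
  have hC : ∀ y y', dist (g y) (g y') ≤ max C 0 * dist y y' := by
    intro y y'
    rw [Real.dist_eq, dist_eq_norm]
    exact (h y y').trans (mul_le_mul_of_nonneg_right (le_max_left _ _) (norm_nonneg _))
  exact (LipschitzWith.of_dist_le_mul (K := ⟨max C 0, le_max_right _ _⟩) hC).continuous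

/-- the variation on near vertices -/
theorem lip_var {l : List ((ι → ℝ) → ℝ)} {C : ℝ}
    (lip : ∀ g ∈ l, ∀ y y', |g y - g y'| ≤ C * ‖y - y'‖) {δ : ℝ} (hδ : 0 < δ) :
    ∀ᶠ M : ℕ in atTop, ∀ g ∈ l, ∀ v w, Near v w → |gr M g v - gr M g w| ≤ δ := by
  filter_upwards [one_div_small (div_pos hδ (by positivity : (0 : ℝ) < max C 0 + 1))] with M m1
  intro g hg v w hvw
  refine (lip g hg _ _).trans ?_
  have h4 := ps_near m1.1 hvw
  have h5 : (0 : ℝ) < max C 0 + 1 := by positivity
  calc C * ‖ps M v - ps M w‖ ≤ (max C 0 + 1) * ‖ps M v - ps M w‖ :=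
        mul_le_mul_of_nonneg_right ((le_max_left C 0).trans (by linarith)) (norm_nonneg _)
    _ ≤ (max C 0 + 1) * (δ / (max C 0 + 1)) :=
        mul_le_mul_of_nonneg_left (h4.trans m1.2) h5.le
    _ = δ := by field_simp

theorem near_symm {v w : ι → ℤ} (h : Near v w) : Near w v := by
  intro i
  have := h i
  rw [abs_sub_comm]
  exact this

section cont

variable {L : AddSubgroup (ι → ℤ)} {q Q f : (ι → ℝ) → ℝ} {R a : ℝ} {x z : ι → ℝ}
  {β ρ1 ρ r1 r2 r3 C : ℝ} {l : List ((ι → ℝ) → ℝ)} {b : ℕ}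

/-- enlarging the ball -/
theorem enl_cont (F : Type*) [Field F] (fc : Continuous f) (h1 : ρ1 < ρ) (h2 : r2 < r3)
    (lip : ∀ g ∈ l, ∀ y y', |g y - g y'| ≤ C * ‖y - y'‖)
    (hsub : ∀ y, ‖y - x‖ ≤ ρ → ‖y - z‖ ≤ r2)
    (inn : ∀ y, ‖y - z‖ ≤ r3 → q y ≤ R)
    (hE : ∀ y, ‖y - z‖ ≤ r3 → (∀ g ∈ l, g y = 0) → ρ1 ≤ ‖y - x‖ → f y < β)
    (hl : Fintype.card ι = b + l.length) :
    ∀ᶠ M : ℕ in atTop, ∀ u ∈ co (F := F) (lam L M) (Xm q R M) (Lv q Q f R a β M) (b + 1),
      Phi (blf M z r2) b (hat b u) (l.map (gr M)) =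
        Phi (blf M x ρ) b (hat b u) (l.map (gr M)) := by
  have hK : IsCompact (closedBall z r3 ∩ {y | ρ1 ≤ ‖y - x‖}) :=
    (isCompact_closedBall z r3).inter_right (isClosed_le continuous_const (by fun_prop))
  obtain ⟨δ, hδ, k⟩ := near_lt fc hK (l := l) (β := β) (fun g hg => lip_cont (lip g hg))
    fun y hy hz => hE y (mem_closedBall_iff_norm.1 hy.1) hz hy.2
  filter_upwards [lip_var lip (half_pos hδ), one_div_small (sub_pos.2 h1),
    one_div_small (sub_pos.2 h2)] with M hvar m1 m2 u hu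
  have hM : 0 < M := m1.1
  refine Phi_enlarge (δ := δ / 2) (fun v hv => ?_) (by rw [List.length_map]; exact hl)
    (by simpa using hvar) hu fun v hv hv1 hg w hw => ?_
  · rw [mem_blf hM] at hv ⊢
    exact hsub _ hv
  · rw [mem_blf hM] at hv hv1
    have h4 := ps_near hM hw
    have h5 : ‖ps M w - z‖ ≤ r3 := by
      have h6 : ps M w - z = (ps M w - ps M v) + (ps M v - z) := by abel
      rw [h6]
      linarith [norm_add_le (ps M w - ps M v) (ps M v - z), m2.2]
    have h7 : ρ1 ≤ ‖ps M w - x‖ := by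
      have h6 : ps M v - x = (ps M w - x) - (ps M w - ps M v) := by abel
      have h8 := norm_sub_le (ps M w - x) (ps M w - ps M v)
      rw [← h6] at h8
      linarith [m1.2, not_le.1 hv1]
    refine ⟨inn _ h5, Or.inr (k _ ⟨mem_closedBall_iff_norm.2 h5, h7⟩ fun g hg' => ?_).le⟩
    have e1 := hg (gr M g) (List.mem_map_of_mem hg')
    have e2 := hvar g hg' w v hw
    have e3 : |gr M g w| ≤ |gr M g v| + |gr M g w - gr M g v| := by
      have := abs_add_le (gr M g v) (gr M g w - gr M g v)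
      rwa [add_sub_cancel] at this
    show |gr M g w| ≤ δ
    linarith

/-- the walls meet only in the sublevel -/
theorem zero_cont (F : Type*) [Field F] (fc : Continuous f) (h2 : r2 < r3)
    (lip : ∀ g ∈ l, ∀ y y', |g y - g y'| ≤ C * ‖y - y'‖)
    (inn : ∀ y, ‖y - z‖ ≤ r3 → q y ≤ R)
    (hE : ∀ y, ‖y - z‖ ≤ r3 → (∀ g ∈ l, g y = 0) → f y < β)
    (hl : Fintype.card ι = b + l.length) :
    ∀ᶠ M : ℕ in atTop, ∀ u ∈ co (F := F) (lam L M) (Xm q R M) (Lv q Q f R a β M) (b + 1),
      Phi (blf M z r2) b (hat b u) (l.map (gr M)) = 0 := by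
  obtain ⟨δ, hδ, k⟩ := near_lt fc (isCompact_closedBall z r3) (l := l) (β := β)
    (fun g hg => lip_cont (lip g hg)) fun y hy hz => hE y (mem_closedBall_iff_norm.1 hy) hz
  filter_upwards [lip_var lip (half_pos hδ), one_div_small (sub_pos.2 h2)] with M hvar m2 u hu
  have hM : 0 < M := m2.1
  refine Phi_eq_zero (δ := δ / 2) (by rw [List.length_map]; exact hl)
    (by simpa using hvar) hu fun v hv hg w hw => ?_
  rw [mem_blf hM] at hv
  have h4 := ps_near hM hw
  have h5 : ‖ps M w - z‖ ≤ r3 := by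
    have h6 : ps M w - z = (ps M w - ps M v) + (ps M v - z) := by abel
    rw [h6]
    linarith [norm_add_le (ps M w - ps M v) (ps M v - z), m2.2]
  refine ⟨inn _ h5, Or.inr (k _ (mem_closedBall_iff_norm.2 h5) fun g hg' => ?_).le⟩
  have e1 := hg (gr M g) (List.mem_map_of_mem hg')
  have e2 := hvar g hg' w v hw
  have e3 : |gr M g w| ≤ |gr M g v| + |gr M g w - gr M g v| := by
    have := abs_add_le (gr M g v) (gr M g w - gr M g v)
    rwa [add_sub_cancel] at this
  show |gr M g w| ≤ δ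
  linarith

/-- moving one wall -/
theorem chg_cont (F : Type*) [Field F] (fc : Continuous f) {φ φ' : (ι → ℝ) → ℝ}
    (h1 : r1 < r2) (h2 : r2 < r3)
    (lip : ∀ g ∈ φ :: φ' :: l, ∀ y y', |g y - g y'| ≤ C * ‖y - y'‖)
    (inn : ∀ y, ‖y - z‖ ≤ r3 → q y ≤ R)
    (hE : ∀ y, r1 ≤ ‖y - z‖ → ‖y - z‖ ≤ r3 → (∀ g ∈ l, g y = 0) →
      min (φ y) (φ' y) ≤ 0 → 0 ≤ max (φ y) (φ' y) → f y < β)
    (hl : Fintype.card ι = b + 1 + l.length) :
    ∀ᶠ M : ℕ in atTop, ∀ u ∈ co (F := F) (lam L M) (Xm q R M) (Lv q Q f R a β M) (b + 1),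
      dX (Xm q R M) u = 0 →
      Phi (blf M z r2) b (hat b u) ((φ :: l).map (gr M)) =
        Phi (blf M z r2) b (hat b u) ((φ' :: l).map (gr M)) := by
  have hφ : Continuous φ := lip_cont (lip φ (by simp))
  have hφ' : Continuous φ' := lip_cont (lip φ' (by simp))
  have hlc : ∀ g ∈ l, Continuous g := fun g hg => lip_cont (lip g (by simp [hg]))
  have hK : IsCompact (closedBall z r3 ∩ {y | r1 ≤ ‖y - z‖}) :=
    (isCompact_closedBall z r3).inter_right (isClosed_le continuous_const (by fun_prop))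
  obtain ⟨δ, hδ, k⟩ := near_lt fc hK (l := (fun y => max 0 (min (φ y) (φ' y))) ::
      (fun y => max 0 (-max (φ y) (φ' y))) :: l) (β := β) (fun g hg => by
      rcases List.mem_cons.1 hg with rfl | hg
      · fun_prop
      rcases List.mem_cons.1 hg with rfl | hg
      · fun_prop
      exact hlc g hg)
    (fun y hy hz => by
      have z1 : max 0 (min (φ y) (φ' y)) = 0 := hz (fun y => max 0 (min (φ y) (φ' y))) (by simp)
      have z2 : max 0 (-max (φ y) (φ' y)) = 0 :=
        hz (fun y => max 0 (-max (φ y) (φ' y))) (by simp)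
      refine hE y hy.2 (mem_closedBall_iff_norm.1 hy.1) (fun g hg => hz g (by simp [hg])) ?_ ?_
      · exact (le_max_right _ _).trans z1.le
      · have := (le_max_right 0 (-max (φ y) (φ' y))).trans z2.le
        linarith)
  have hs1 : 0 < (r2 - r1) / 2 := by linarith
  have hs2 : 0 < (r3 - r2) / 2 := by linarith
  filter_upwards [lip_var lip (half_pos hδ), one_div_small hs1, one_div_small hs2] with
    M hvar m1 m2 u hu hd
  have hM : 0 < M := m1.1
  have hps : ∀ v w, Near v w → ∀ c, ‖ps M v - z‖ ≤ c → ‖ps M w - z‖ ≤ c + 1 / M := by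
    intro v w hvw c hc
    have h4 := ps_near hM (near_symm hvw)
    have h6 : ps M w - z = (ps M w - ps M v) + (ps M v - z) := by abel
    rw [h6]
    linarith [norm_add_le (ps M w - ps M v) (ps M v - z)]
  refine Phi_change (δ := δ / 2) (by rw [List.length_map]; exact hl) ?_ (fun v hv w hw => ?_)
    hu hd fun v hv1 hv2 hg hmin hmax w hw => ?_
  · intro g hg v w hvw
    have : g ∈ (φ :: φ' :: l).map (gr M) := by simpa using hg
    obtain ⟨g', hg', rfl⟩ := List.mem_map.1 this
    exact hvar g' hg' v w hvw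
  · rw [mem_blf hM] at hv
    have h5 := hps v w (near_symm hw) _ hv
    exact inn _ (by linarith [m2.2])
  · push Not at hv1 hv2
    obtain ⟨w1, hw1, hw1'⟩ := hv1
    obtain ⟨w2, hw2, hw2'⟩ := hv2
    rw [mem_blf hM] at hw1' hw2'
    have e1 : ‖ps M v - z‖ ≤ r2 + 1 / M := hps w2 v hw2 _ hw2'
    have e2 : r2 - 1 / M ≤ ‖ps M v - z‖ := by
      by_contra hcon
      have := hps v w1 (near_symm hw1) _ (not_le.1 hcon).le
      linarith [not_le.1 hw1']
    have e3 : ‖ps M w - z‖ ≤ r3 := by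
      have := hps v w (near_symm hw) _ e1
      linarith [m2.2]
    have e4 : r1 ≤ ‖ps M w - z‖ := by
      by_contra hcon
      have := hps w v hw _ (not_le.1 hcon).le
      have h8 := m1.2
      have h9 : r2 - 1 / (M : ℝ) ≤ ‖ps M w - z‖ + 1 / M := by
        exact e2.trans (hps w v hw _ le_rfl)
      linarith [not_le.1 hcon]
    have hgv : ∀ g ∈ φ :: φ' :: l, |g (ps M w) - g (ps M v)| ≤ δ / 2 := fun g hg =>
      hvar g hg w v hw
    refine ⟨inn _ e3, Or.inr (k _ ⟨mem_closedBall_iff_norm.2 e3, e4⟩ fun g hg' => ?_).le⟩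
    have f1 := (abs_le.1 (hgv φ (by simp)))
    have f2 := (abs_le.1 (hgv φ' (by simp)))
    have hmin' : min (φ (ps M v)) (φ' (ps M v)) ≤ δ / 2 := hmin
    have hmax' : -(δ / 2) ≤ max (φ (ps M v)) (φ' (ps M v)) := hmax
    rcases List.mem_cons.1 hg' with rfl | hg'
    · show |max 0 (min (φ (ps M w)) (φ' (ps M w)))| ≤ δ
      rw [abs_of_nonneg (le_max_left _ _)]
      refine max_le hδ.le ?_
      rcases min_le_iff.1 hmin' with h3 | h3
      · exact (min_le_left _ _).trans (by linarith)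
      · exact (min_le_right _ _).trans (by linarith)
    rcases List.mem_cons.1 hg' with rfl | hg'
    · show |max 0 (-max (φ (ps M w)) (φ' (ps M w)))| ≤ δ
      rw [abs_of_nonneg (le_max_left _ _)]
      refine max_le hδ.le ?_
      rcases le_max_iff.1 hmax' with h3 | h3
      · have := le_max_left (φ (ps M w)) (φ' (ps M w))
        linarith
      · have := le_max_right (φ (ps M w)) (φ' (ps M w))
        linarith
    · have g1 := hg (gr M g) (List.mem_map_of_mem hg')
      have g2 := hgv g (by simp [hg'])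
      have g3 : |g (ps M w)| ≤ |g (ps M v)| + |g (ps M w) - g (ps M v)| := by
        have := abs_add_le (g (ps M v)) (g (ps M w) - g (ps M v))
        rwa [add_sub_cancel] at this
      have g4 : |g (ps M v)| ≤ δ / 2 := g1
      linarith

end cont

/-- strict concavity along a segment starting at a critical point -/
theorem conc_lt {E : Type*} [NormedAddCommGroup E] [NormedSpace ℝ E] {f : E → ℝ}
    (hf : ContDiff ℝ 2 f) {x v : E} (hx : fderiv ℝ f x = 0)
    (hneg : ∀ t : ℝ, 0 ≤ t → t ≤ 1 → D2 f (x + t • v) v v < 0) : f (x + v) < f x := by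
  have hd1 : ∀ t : ℝ, HasDerivAt (fun t : ℝ => f (x + t • v)) (fderiv ℝ f (x + t • v) v) t := by
    intro t
    have h8 : HasDerivAt (fun t : ℝ => x + t • v) v t := by
      simpa using ((hasDerivAt_id t).smul_const v).const_add x
    exact ((hf.differentiable (by norm_num) _).hasFDerivAt).comp_hasDerivAt t h8
  have hd2 : ∀ t : ℝ, HasDerivAt (fun t : ℝ => fderiv ℝ f (x + t • v) v)
      (D2 f (x + t • v) v v) t := by
    intro t
    have h8 : HasDerivAt (fun t : ℝ => x + t • v) v t := by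
      simpa using ((hasDerivAt_id t).smul_const v).const_add x
    have h9 : HasDerivAt (fun t : ℝ => fderiv ℝ f (x + t • v)) (D2 f (x + t • v) v) t :=
      (((Pool.Agent.H10.TU.D1_c1 hf).differentiable (by norm_num) _).hasFDerivAt).comp_hasDerivAt
        t h8
    simpa using h9.clm_apply (hasDerivAt_const t v)
  have h1 : StrictAntiOn (fun t : ℝ => fderiv ℝ f (x + t • v) v) (Set.Icc 0 1) := by
    refine strictAntiOn_of_deriv_neg (convex_Icc 0 1)
      (fun t _ => (hd2 t).continuousAt.continuousWithinAt) fun t ht => ?_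
    rw [interior_Icc] at ht
    rw [(hd2 t).deriv]
    exact hneg t ht.1.le ht.2.le
  have h2 : StrictAntiOn (fun t : ℝ => f (x + t • v)) (Set.Icc 0 1) := by
    refine strictAntiOn_of_deriv_neg (convex_Icc 0 1)
      (fun t _ => (hd1 t).continuousAt.continuousWithinAt) fun t ht => ?_
    rw [interior_Icc] at ht
    rw [(hd1 t).deriv]
    have h3 := h1 (Set.left_mem_Icc.2 zero_le_one) ⟨ht.1.le, ht.2.le⟩ ht.1
    simp only [zero_smul, add_zero, hx, ContinuousLinearMap.zero_apply] at h3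
    exact h3
  have h3 := h2 (Set.left_mem_Icc.2 zero_le_one) (Set.right_mem_Icc.2 zero_le_one) one_pos
  simpa using h3

end Pool.Agent.H65.TU
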